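import Mathlib

set_option autoImplicit false

/-!
Elementary facts on joint eigenvectors.
-/

namespace Pool.Agent.Th36

open Finset Module

variable {k V : Type} [Field k] [AddCommGroup V] [Module k V]

/-- Separation of joint eigenvectors by their weights. -/
theorem sep {ι J : Type} (T : J → V →ₗ[k] V) (χ : ι → J → k) (χ0 : J → k) :
    ∀ (n : ℕ) (S : Finset ι) (w : ι → V), S.card = n → (∀ i ∈ S, ∀ j, T j (w i) = χ i j • w i) →
      ∑ i ∈ S, w i = 0 → (∑ i ∈ S, open Classical in if χ i = χ0 then w i else 0) = 0 := by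
  classical
  intro n
  induction n with
  | zero =>
    intro S w hS _ _
    rw [Finset.card_eq_zero] at hS
    simp [hS]
  | succ n ih =>
    intro S w hS hw hsum
    by_cases hall : ∀ i ∈ S, χ i = χ0
    · rw [← hsum]
      exact Finset.sum_congr rfl fun i hi => by rw [if_pos (hall i hi)]
    · push Not at hall
      obtain ⟨i1, hi1, hne⟩ := hall
      obtain ⟨j, hj⟩ := Function.ne_iff.mp hne
      have hj' : χ0 j - χ i1 j ≠ 0 := sub_ne_zero.mpr (Ne.symm hj)
      set w' : ι → V := fun i => ((χ i j - χ i1 j) / (χ0 j - χ i1 j)) • w i with hw'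
      have h1 : ∑ i ∈ S, w' i = 0 := by
        have h2 : T j (∑ i ∈ S, w i) - χ i1 j • ∑ i ∈ S, w i = 0 := by rw [hsum]; simp
        rw [map_sum, Finset.smul_sum, ← Finset.sum_sub_distrib] at h2
        have h3 : ∑ i ∈ S, w' i = (χ0 j - χ i1 j)⁻¹ •
            ∑ i ∈ S, ((T j) (w i) - χ i1 j • w i) := by
          rw [Finset.smul_sum]
          refine Finset.sum_congr rfl fun i hi => ?_
          show ((χ i j - χ i1 j) / (χ0 j - χ i1 j)) • w i = _
          rw [hw i hi j, ← sub_smul, smul_smul, div_eq_mul_inv, mul_comm]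
        rw [h3, h2, smul_zero]
      have hw1 : w' i1 = 0 := by simp [hw']
      have h4 : ∑ i ∈ S.erase i1, w' i = 0 := by
        rw [← h1, ← Finset.sum_erase_add S _ hi1, hw1, add_zero]
      have h5 := ih (S.erase i1) w' (by rw [Finset.card_erase_of_mem hi1, hS]; rfl)
        (fun i hi j' => by
          show T j' (((χ i j - χ i1 j) / (χ0 j - χ i1 j)) • w i) =
            χ i j' • (((χ i j - χ i1 j) / (χ0 j - χ i1 j)) • w i)
          rw [map_smul, hw i (Finset.mem_of_mem_erase hi) j', smul_comm]) h4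
      rw [← Finset.sum_erase_add S _ hi1, if_neg hne, add_zero]
      refine Eq.trans (Finset.sum_congr rfl fun i hi => ?_) h5
      by_cases hc : χ i = χ0
      · rw [if_pos hc, if_pos hc]
        show w i = ((χ i j - χ i1 j) / (χ0 j - χ i1 j)) • w i
        rw [hc, div_self hj', one_smul]
      · rw [if_neg hc, if_neg hc]

/-- Common eigenvectors of a set of operators commuting on an invariant subspace. -/
theorem common_eig [IsAlgClosed k] [FiniteDimensional k V] (𝒮 : Set (V →ₗ[k] V)) :
    ∀ (n : ℕ) (X : Submodule k V), finrank k X = n → X ≠ ⊥ → (∀ T ∈ 𝒮, ∀ v ∈ X, T v ∈ X) →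
      (∀ T ∈ 𝒮, ∀ T' ∈ 𝒮, ∀ v ∈ X, T (T' v) = T' (T v)) →
      ∃ v ∈ X, v ≠ 0 ∧ ∀ T ∈ 𝒮, ∃ c : k, T v = c • v := by
  intro n
  induction n using Nat.strong_induction_on with
  | _ n ih =>
    intro X hn hX hinv hcomm
    by_cases hall : ∀ T ∈ 𝒮, ∃ c : k, ∀ v ∈ X, T v = c • v
    · obtain ⟨v, hv, hv0⟩ := (Submodule.ne_bot_iff X).mp hX
      exact ⟨v, hv, hv0, fun T hT => (hall T hT).imp fun c hc => hc v hv⟩
    · push Not at hall
      obtain ⟨T, hT, hTc⟩ := hall
      have hnt : Nontrivial X := Submodule.nontrivial_iff_ne_bot.mpr hX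
      let T' : X →ₗ[k] X := T.restrict (hinv T hT)
      obtain ⟨μ, hμ⟩ := Module.End.exists_eigenvalue T'
      obtain ⟨u, hu⟩ := hμ.exists_hasEigenvector
      have hu1 : T (u : V) = μ • (u : V) := by
        have := hu.apply_eq_smul
        exact congrArg Subtype.val this
      have hu0 : (u : V) ≠ 0 := fun h => hu.2 (Subtype.ext h)
      let X' : Submodule k V := X ⊓ LinearMap.ker (T - μ • LinearMap.id)
      have hX'mem : ∀ v, v ∈ X' ↔ v ∈ X ∧ T v = μ • v := by
        intro v
        rw [Submodule.mem_inf, LinearMap.mem_ker, LinearMap.sub_apply, LinearMap.smul_apply,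
          LinearMap.id_apply, sub_eq_zero]
      have hX'le : X' < X := by
        refine lt_of_le_of_ne inf_le_left fun heq => ?_
        obtain ⟨v, hv, hv1⟩ := hTc μ
        exact hv1 ((hX'mem v).mp (heq ▸ hv)).2
      obtain ⟨v, hv, hv0, hv1⟩ := ih (finrank k X') (by rw [← hn]; exact Submodule.finrank_lt_finrank_of_lt hX'le)
        X' rfl ((Submodule.ne_bot_iff X').mpr ⟨u, (hX'mem _).mpr ⟨u.2, hu1⟩, hu0⟩)
        (fun S hS v hv => by
          rw [hX'mem] at hv ⊢
          refine ⟨hinv S hS v hv.1, ?_⟩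
          rw [hcomm T hT S hS v hv.1, hv.2, map_smul])
        (fun S hS S' hS' v hv => hcomm S hS S' hS' v (hX'le.le hv))
      exact ⟨v, hX'le.le hv, hv0, hv1⟩

end Pool.Agent.Th36
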