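import Mathlib

set_option autoImplicit false

/-!
Abstract part of the key lemma: a finite group `R` with a symmetric bi-additive form with values in
`ZMod 2`, preserved by a finite group `B` of automorphisms all of whose nontrivial elements move `R`
a lot.
-/

namespace Pool.Agent.Th36

open Finset

/-- A group `R` with a form, and a group `B` acting. -/
structure FormData (R B : Type) [Group R] [Group B] where
  act : B → R →* R
  act_one : ∀ x, act 1 x = x
  act_mul : ∀ b c x, act (b * c) x = act b (act c x)
  s : R → R → ZMod 2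
  add_left : ∀ x y z, s (x * y) z = s x z + s y z
  add_right : ∀ x y z, s x (y * z) = s x y + s x z
  symm : ∀ x y, s x y = s y x
  inv : ∀ b x y, s (act b x) (act b y) = s x y

section general

variable {R : Type} [Group R] [Finite R]

/-- fibres of a homomorphism are at most as large as the kernel -/
lemma card_fiber_le {H : Type} [Group H] (f : R →* H) (h : H) :
    Nat.card {x // f x = h} ≤ Nat.card f.ker := by
  classical
  by_cases he : ∃ x0, f x0 = h
  · obtain ⟨x0, hx0⟩ := he
    refine Nat.card_le_card_of_injective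
      (fun x : {x // f x = h} => (⟨x0⁻¹ * x.1, by
        rw [MonoidHom.mem_ker, map_mul, map_inv, hx0, x.2, inv_mul_cancel]⟩ : f.ker)) ?_
    intro x y hxy
    have := congrArg (fun t : f.ker => (t : R)) hxy
    simp only [mul_right_inj] at this
    exact Subtype.ext this
  · have : IsEmpty {x // f x = h} := ⟨fun x => he ⟨x.1, x.2⟩⟩
    simp

lemma card_preimage_le {H : Type} [Group H] (f : R →* H) (S : Finset H) :
    Nat.card {x // f x ∈ S} ≤ Nat.card f.ker * S.card := by
  classical
  have h1 : Nat.card {x // f x ∈ S} ≤ Nat.card (Σ h : S, {x // f x = h.1}) := by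
    refine Nat.card_le_card_of_injective
      (fun x : {x // f x ∈ S} => (⟨⟨f x.1, x.2⟩, ⟨x.1, rfl⟩⟩ : Σ h : S, {x // f x = h.1})) ?_
    intro x y hxy
    have h2 := congrArg (fun t : (Σ h : S, {x // f x = h.1}) => t.2.1) hxy
    exact Subtype.ext h2
  refine h1.trans ?_
  rw [Nat.card_sigma]
  calc ∑ h : S, Nat.card {x // f x = h.1} ≤ ∑ _h : S, Nat.card f.ker :=
        Finset.sum_le_sum fun h _ => card_fiber_le f h.1
    _ = Nat.card f.ker * S.card := by
        rw [Finset.sum_const, smul_eq_mul, mul_comm]
        simp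

lemma card_le_ker_mul {H : Type} [Group H] [Finite H] (f : R →* H) :
    Nat.card R ≤ Nat.card f.ker * Nat.card H := by
  have h1 : Nat.card R = Nat.card f.ker * f.ker.index := (Subgroup.card_mul_index f.ker).symm
  rw [h1, Subgroup.index_ker]
  exact Nat.mul_le_mul_left _ (Nat.card_le_card_of_injective _ Subtype.val_injective)

lemma ker_mul_of_surjective {H : Type} [Group H] (f : R →* H)
    (hf : Function.Surjective f) : Nat.card f.ker * Nat.card H = Nat.card R := by
  rw [← Subgroup.card_mul_index f.ker, Subgroup.index_ker]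
  congr 1
  rw [MonoidHom.range_eq_top.mpr hf]
  exact (Nat.card_congr (Subgroup.topEquiv).toEquiv).symm

/-- elements realising a prescribed combination under all additive functions -/
lemma exists_combo {R : Type} [Group R] {ι : Type} (z : ι → R) (g : ι → ZMod 2) (S : Finset ι) :
    ∃ y : R, ∀ (E : Type) [AddCommGroup E] [Module (ZMod 2) E] (f : R → E),
      (∀ a b, f (a * b) = f a + f b) → f y = ∑ i ∈ S, g i • f (z i) := by
  classical
  induction S using Finset.induction_on with
  | empty =>
    refine ⟨1, fun E _ _ f hf => ?_⟩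
    have := hf 1 1
    rw [mul_one] at this
    simpa using this
  | insert i S hi ih =>
    obtain ⟨y, hy⟩ := ih
    refine ⟨(if g i = 0 then 1 else z i) * y, fun E _ _ f hf => ?_⟩
    have h1 : f 1 = 0 := by
      have := hf 1 1
      rw [mul_one] at this
      simpa using this
    rw [hf, hy E f hf, Finset.sum_insert hi]
    congr 1
    by_cases h0 : g i = 0
    · simp [h0, h1]
    · have : g i = 1 := by
        have h2 : ∀ a : ZMod 2, a ≠ 0 → a = 1 := by decide
        exact h2 _ h0
      simp [this]

end general

namespace FormData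

variable {R B : Type} [Group R] [Group B] (F : FormData R B)

/-- `x ↦ s (b x) - s x` as a homomorphism to functions -/
def psi (b : B) : R →* Multiplicative (R → ZMod 2) where
  toFun x := Multiplicative.ofAdd (fun e => F.s (F.act b x) e + F.s x e)
  map_one' := by
    have h : ∀ e, F.s 1 e = 0 := fun e => by
      have := F.add_left 1 1 e
      rw [mul_one] at this
      simpa using this
    rw [← ofAdd_zero]
    congr 1
    funext e
    simp [h]
  map_mul' x y := by
    rw [← ofAdd_add]
    congr 1
    funext e
    simp only [map_mul, F.add_left, Pi.add_apply]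
    ring

/-- `psi` as a plain function -/
def ps (b : B) (x : R) : R → ZMod 2 := fun e => F.s (F.act b x) e + F.s x e

lemma psi_apply (b : B) (x : R) : F.psi b x = Multiplicative.ofAdd (F.ps b x) := rfl

lemma ps_mul (b : B) (x y : R) : F.ps b (x * y) = F.ps b x + F.ps b y := by
  have := F.psi b |>.map_mul x y
  exact this

/-- orthogonality to the `B`-translates of a family -/
def orth {t : ℕ} (z : Fin t → R) : R →* Multiplicative (Fin t × B → ZMod 2) where
  toFun x := Multiplicative.ofAdd (fun p => F.s (F.act p.2 (z p.1)) x)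
  map_one' := by
    have h : ∀ e, F.s e 1 = 0 := fun e => by
      have := F.add_right e 1 1
      rw [mul_one] at this
      simpa using this
    rw [← ofAdd_zero]
    congr 1
    funext e
    simp [h]
  map_mul' x y := by
    rw [← ofAdd_add]
    congr 1
    funext e
    simp [F.add_right]

lemma card_span_le {E : Type} [AddCommGroup E] [Module (ZMod 2) E] {t : ℕ} (v : Fin t → E) :
    ∃ S : Finset (Multiplicative E), S.card ≤ 2 ^ t ∧
      ∀ x : E, x ∈ Submodule.span (ZMod 2) (Set.range v) → Multiplicative.ofAdd x ∈ S := by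
  classical
  refine ⟨(Finset.univ : Finset (Fin t → ZMod 2)).image
    (fun c => Multiplicative.ofAdd (∑ i, c i • v i)), ?_, ?_⟩
  · refine Finset.card_image_le.trans ?_
    simp [Finset.card_univ, ZMod.card]
  · intro x hx
    rw [Submodule.mem_span_range_iff_exists_fun] at hx
    obtain ⟨c, hc⟩ := hx
    rw [Finset.mem_image]
    exact ⟨c, Finset.mem_univ _, by rw [hc]⟩

variable [Finite R] [Finite B]

/-- Key lemma, existence of a large isotropic system. -/
theorem greedy (N : ℕ)
    (h : ∀ b : B, b ≠ 1 →
      Nat.card (F.psi b).ker * (Nat.card B * 2 ^ (N * (Nat.card B + 1))) ≤ Nat.card R) :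
    ∀ t ≤ N, ∃ z : Fin t → R, (∀ i j, i ≠ j → ∀ b, F.s (z i) (F.act b (z j)) = 0) ∧
      ∀ b : B, b ≠ 1 → LinearIndependent (ZMod 2) (fun i => F.ps b (z i)) := by
  classical
  have := Fintype.ofFinite B
  intro t
  induction t with
  | zero =>
    intro _
    exact ⟨fun i => i.elim0, fun i => i.elim0, fun b _ => linearIndependent_empty_type⟩
  | succ t ih =>
    intro ht
    obtain ⟨z, hz1, hz2⟩ := ih (by omega)
    -- find a new element
    have key : ∃ x : R, (∀ i b, F.s (F.act b (z i)) x = 0) ∧
        ∀ b : B, b ≠ 1 → F.ps b x ∉ Submodule.span (ZMod 2) (Set.range fun i => F.ps b (z i)) := by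
      by_contra hcon
      push Not at hcon
      choose S hS1 hS2 using fun b : B => card_span_le (fun i => F.ps b (z i))
      set β := Nat.card B with hβ
      have hβpos : 0 < β := Nat.card_pos
      -- W = kernel of orth
      have hW : Nat.card R ≤ Nat.card (F.orth z).ker * 2 ^ (t * β) := by
        have := card_le_ker_mul (F.orth z)
        have hc : Nat.card (Multiplicative (Fin t × B → ZMod 2)) = 2 ^ (t * β) := by
          rw [show Nat.card (Multiplicative (Fin t × B → ZMod 2)) = Nat.card (Fin t × B → ZMod 2)
            from rfl, Nat.card_fun, Nat.card_prod, Nat.card_eq_fintype_card, ZMod.card,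
            Nat.card_eq_fintype_card, Fintype.card_fin]
        rwa [hc] at this
      have hcov : Nat.card (F.orth z).ker ≤
          Nat.card (Σ b : {b : B // b ≠ 1}, {x // F.psi b.1 x ∈ S b.1}) := by
        have hch : ∀ x : (F.orth z).ker, ∃ b : B, b ≠ 1 ∧ F.psi b x.1 ∈ S b := by
          intro x
          have hx : ∀ i b, F.s (F.act b (z i)) x.1 = 0 := by
            intro i b
            have h1 : F.orth z x.1 = 1 := x.2
            have h2 := congrFun (congrArg Multiplicative.toAdd h1) (i, b)
            exact h2
          obtain ⟨b, hb1, hb2⟩ := hcon x.1 hx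
          exact ⟨b, hb1, hS2 b _ hb2⟩
        choose f hf1 hf2 using hch
        refine Nat.card_le_card_of_injective
          (fun x => (⟨⟨f x, hf1 x⟩, ⟨x.1, hf2 x⟩⟩ :
            Σ b : {b : B // b ≠ 1}, {x // F.psi b.1 x ∈ S b.1})) ?_
        intro x y hxy
        have h2 := congrArg
          (fun t : (Σ b : {b : B // b ≠ 1}, {x // F.psi b.1 x ∈ S b.1}) => t.2.1) hxy
        exact Subtype.ext h2
      rw [Nat.card_sigma] at hcov
      set M := β * 2 ^ (N * (β + 1)) with hM
      have hterm : ∀ b : {b : B // b ≠ 1},
          Nat.card {x // F.psi b.1 x ∈ S b.1} * M ≤ 2 ^ t * Nat.card R := by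
        intro b
        calc Nat.card {x // F.psi b.1 x ∈ S b.1} * M
            ≤ (Nat.card (F.psi b.1).ker * (S b.1).card) * M :=
              Nat.mul_le_mul_right _ (card_preimage_le _ _)
          _ ≤ (Nat.card (F.psi b.1).ker * 2 ^ t) * M :=
              Nat.mul_le_mul_right _ (Nat.mul_le_mul_left _ (hS1 b.1))
          _ = 2 ^ t * (Nat.card (F.psi b.1).ker * M) := by ring
          _ ≤ 2 ^ t * Nat.card R := Nat.mul_le_mul_left _ (h b.1 b.2)
      have hsum : (∑ b : {b : B // b ≠ 1}, Nat.card {x // F.psi b.1 x ∈ S b.1}) * M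
          ≤ β * (2 ^ t * Nat.card R) := by
        rw [Finset.sum_mul]
        calc ∑ b : {b : B // b ≠ 1}, Nat.card {x // F.psi b.1 x ∈ S b.1} * M
            ≤ ∑ _b : {b : B // b ≠ 1}, 2 ^ t * Nat.card R :=
              Finset.sum_le_sum fun b _ => hterm b
          _ = Fintype.card {b : B // b ≠ 1} * (2 ^ t * Nat.card R) := by
              rw [Finset.sum_const, smul_eq_mul, Finset.card_univ]
          _ ≤ β * (2 ^ t * Nat.card R) := by
              apply Nat.mul_le_mul_right
              rw [hβ, Nat.card_eq_fintype_card]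
              exact Fintype.card_subtype_le _
      have hR : 0 < Nat.card R := Nat.card_pos
      have hfin : Nat.card R * M ≤ (β * (2 ^ t * Nat.card R)) * 2 ^ (t * β) := by
        calc Nat.card R * M ≤ (Nat.card (F.orth z).ker * 2 ^ (t * β)) * M :=
              Nat.mul_le_mul_right _ hW
          _ = (Nat.card (F.orth z).ker * M) * 2 ^ (t * β) := by ring
          _ ≤ ((∑ b : {b : B // b ≠ 1}, Nat.card {x // F.psi b.1 x ∈ S b.1}) * M) * 2 ^ (t * β) :=
              Nat.mul_le_mul_right _ (Nat.mul_le_mul_right _ hcov)
          _ ≤ _ := Nat.mul_le_mul_right _ hsum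
      have h5 : (Nat.card R * β) * 2 ^ (N * (β + 1)) ≤ (Nat.card R * β) * 2 ^ (t * (β + 1)) := by
        calc (Nat.card R * β) * 2 ^ (N * (β + 1)) = Nat.card R * M := by rw [hM]; ring
          _ ≤ (β * (2 ^ t * Nat.card R)) * 2 ^ (t * β) := hfin
          _ = (Nat.card R * β) * 2 ^ (t * (β + 1)) := by ring
      have h6 := Nat.le_of_mul_le_mul_left h5 (Nat.mul_pos hR hβpos)
      have h7 : 2 ^ (t * (β + 1)) < 2 ^ (N * (β + 1)) := by
        apply Nat.pow_lt_pow_right (by norm_num)
        exact Nat.mul_lt_mul_of_pos_right (by omega) (by omega)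
      omega
    obtain ⟨x, hx1, hx2⟩ := key
    refine ⟨Fin.cons x z, ?_, ?_⟩
    · intro i j hij b
      have hA : ∀ i b, F.s x (F.act b (z i)) = 0 := fun i b => by rw [F.symm]; exact hx1 i b
      have hB : ∀ i b, F.s (z i) (F.act b x) = 0 := fun i b => by
        have h1 := F.inv b (F.act b⁻¹ (z i)) x
        rw [← F.act_mul, mul_inv_cancel, F.act_one] at h1
        rw [h1]
        exact hx1 i b⁻¹
      revert hij
      refine Fin.cases ?_ (fun i' => ?_) i
      · refine Fin.cases ?_ (fun j' => ?_) j
        · intro hh; exact absurd rfl hh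
        · intro _; simpa using hA j' b
      · refine Fin.cases ?_ (fun j' => ?_) j
        · intro _; simpa using hB i' b
        · intro hh
          simpa using hz1 i' j' (fun h => hh (by rw [h])) b
    · intro b hb
      have : (fun i => F.ps b ((Fin.cons x z : Fin (t + 1) → R) i)) =
          Fin.cons (F.ps b x) (fun i => F.ps b (z i)) := by
        funext i
        refine Fin.cases ?_ ?_ i
        · simp
        · intro j; simp
      rw [this, linearIndependent_finCons]
      exact ⟨hz2 b hb, hx2 b hb⟩

/-- From the greedy system: pairwise orthogonal to all translates, including itself. -/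
theorem exists_system (n : ℕ)
    (h : ∀ b : B, b ≠ 1 →
      Nat.card (F.psi b).ker *
        (Nat.card B * 2 ^ ((n * (Nat.card B + 1)) * (Nat.card B + 1))) ≤ Nat.card R) :
    ∃ y : Fin n → R, (∀ i j b, F.s (y i) (F.act b (y j)) = 0) ∧
      ∀ b : B, b ≠ 1 → LinearIndependent (ZMod 2) (fun i => F.ps b (y i)) := by
  classical
  have := Fintype.ofFinite B
  set β := Nat.card B with hβ
  obtain ⟨z, hz1, hz2⟩ := F.greedy (n * (β + 1)) h (n * (β + 1)) le_rfl
  let e : Fin n × Fin (β + 1) ≃ Fin (n * (β + 1)) := finProdFinEquiv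
  have hdep : ∀ j : Fin n, ∃ g : Fin (β + 1) → ZMod 2,
      (∀ b, ∑ i, g i * F.s (z (e (j, i))) (F.act b (z (e (j, i)))) = 0) ∧ ∃ i, g i ≠ 0 := by
    intro j
    have hnli : ¬ LinearIndependent (ZMod 2)
        (fun i : Fin (β + 1) => (fun b : B => F.s (z (e (j, i))) (F.act b (z (e (j, i)))))) := by
      intro hli
      have := hli.fintype_card_le_finrank
      rw [Fintype.card_fin, Module.finrank_fintype_fun_eq_card, ← Nat.card_eq_fintype_card,
        ← hβ] at this
      omega
    rw [Fintype.not_linearIndependent_iff] at hnli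
    obtain ⟨g, hg1, hg2⟩ := hnli
    refine ⟨g, fun b => ?_, hg2⟩
    have := congrFun hg1 b
    simpa using this
  choose g hg1 hg2 using hdep
  choose y hy using fun j => exists_combo (fun i => z (e (j, i))) (g j) Finset.univ
  have hs1 : ∀ j w, F.s (y j) w = ∑ i, g j i * F.s (z (e (j, i))) w := by
    intro j w
    have := hy j (ZMod 2) (fun x => F.s x w) (fun a b => F.add_left a b w)
    simpa using this
  have hs2 : ∀ j x b, F.s x (F.act b (y j)) = ∑ i, g j i * F.s x (F.act b (z (e (j, i)))) := by
    intro j x b
    have := hy j (ZMod 2) (fun w => F.s x (F.act b w)) (fun a c => by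
      simp only [map_mul, F.add_right])
    simpa using this
  refine ⟨y, ?_, ?_⟩
  · intro i j b
    rw [hs1]
    by_cases hij : i = j
    · subst hij
      have hsum : ∀ a, g i a * F.s (z (e (i, a))) (F.act b (y i)) =
          g i a * F.s (z (e (i, a))) (F.act b (z (e (i, a)))) := by
        intro a
        rw [hs2, Finset.sum_eq_single a]
        · have h2 : ∀ u : ZMod 2, u * u = u := by decide
          rw [← mul_assoc, h2]
        · intro c _ hca
          rw [hz1 _ _ (fun h => hca (by
            have := e.injective h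
            simp only [Prod.mk.injEq, true_and] at this
            exact this.symm)) b, mul_zero]
        · intro hh; exact absurd (Finset.mem_univ _) hh
      rw [Finset.sum_congr rfl (fun a _ => hsum a)]
      exact hg1 i b
    · refine Finset.sum_eq_zero fun a _ => ?_
      rw [hs2, Finset.sum_eq_zero, mul_zero]
      intro c _
      rw [hz1 _ _ (fun h => hij (by
        have := e.injective h
        simp only [Prod.mk.injEq] at this
        exact this.1)) b, mul_zero]
  · intro b hb
    have hli := hz2 b hb
    rw [Fintype.linearIndependent_iff] at hli ⊢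
    intro c hc
    have hps : ∀ j, F.ps b (y j) = ∑ i, g j i • F.ps b (z (e (j, i))) := by
      intro j
      exact hy j (R → ZMod 2) (fun x => F.ps b x) (F.ps_mul b)
    have hc2 : ∑ p : Fin (n * (β + 1)),
        (c (e.symm p).1 * g (e.symm p).1 (e.symm p).2) • F.ps b (z p) = 0 := by
      rw [← e.sum_comp]
      simp only [Equiv.symm_apply_apply]
      rw [Fintype.sum_prod_type]
      rw [← hc]
      refine Finset.sum_congr rfl fun j _ => ?_
      rw [hps, Finset.smul_sum]
      refine Finset.sum_congr rfl fun i _ => ?_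
      rw [smul_smul]
    have h3 := hli _ hc2
    intro j
    obtain ⟨i, hi⟩ := hg2 j
    have h4 := h3 (e (j, i))
    simp only [Equiv.symm_apply_apply] at h4
    rcases mul_eq_zero.mp h4 with h5 | h5
    · exact h5
    · exact absurd h5 hi

/-- The functional map is surjective. -/
theorem exists_good {n : ℕ} (hn : Nat.card B ≤ 2 ^ n) (y : Fin n → R)
    (hy : ∀ b : B, b ≠ 1 → LinearIndependent (ZMod 2) (fun i => F.ps b (y i)))
    (μ : B → Fin n → ZMod 2) :
    ∃ e : R, ∀ b : B, b ≠ 1 → ∃ i, F.ps b (y i) e ≠ μ b i := by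
  classical
  have := Fintype.ofFinite B
  let Φ : B → R →* Multiplicative (Fin n → ZMod 2) := fun b =>
    { toFun := fun e => Multiplicative.ofAdd (fun i => F.ps b (y i) e)
      map_one' := by
        have h : ∀ e, F.s e 1 = 0 := fun e => by
          have := F.add_right e 1 1
          rw [mul_one] at this
          simpa using this
        rw [← ofAdd_zero]
        congr 1
        funext i
        simp [ps, h]
      map_mul' := fun u v => by
        rw [← ofAdd_add]
        congr 1
        funext i
        simp only [ps, F.add_right, Pi.add_apply]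
        ring }
  have hΦ : ∀ b e, Φ b e = Multiplicative.ofAdd (fun i => F.ps b (y i) e) := fun b e => rfl
  have hsurj : ∀ b : B, b ≠ 1 → Function.Surjective (Φ b) := by
    intro b hb
    -- the range as a submodule
    let W : AddSubgroup (Fin n → ZMod 2) :=
      { carrier := {v | ∃ e, Φ b e = Multiplicative.ofAdd v}
        zero_mem' := ⟨1, by rw [map_one]; rfl⟩
        add_mem' := by
          rintro u v ⟨e1, h1⟩ ⟨e2, h2⟩
          exact ⟨e1 * e2, by rw [map_mul, h1, h2]; rfl⟩
        neg_mem' := by
          rintro u ⟨e1, h1⟩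
          exact ⟨e1⁻¹, by rw [map_inv, h1]; rfl⟩ }
    let W' : Submodule (ZMod 2) (Fin n → ZMod 2) := AddSubgroup.toZModSubmodule 2 W
    have hW' : ∀ v, v ∈ W' ↔ ∃ e, Φ b e = Multiplicative.ofAdd v := fun v => Iff.rfl
    have htop : W' = ⊤ := by
      by_contra hne
      obtain ⟨f, hf0, hf1⟩ := Submodule.exists_le_ker_of_lt_top W' (lt_top_iff_ne_top.mpr hne)
      have hli := hy b hb
      rw [Fintype.linearIndependent_iff] at hli
      have hf2 : ∀ v : Fin n → ZMod 2, f v = ∑ i, v i * f (Pi.single i 1) := by
        intro v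
        conv_lhs => rw [← Finset.univ_sum_single v]
        rw [map_sum]
        refine Finset.sum_congr rfl fun i _ => ?_
        have : (Pi.single i (v i) : Fin n → ZMod 2) = v i • Pi.single i 1 := by
          rw [← Pi.single_smul, smul_eq_mul, mul_one]
        rw [this, map_smul, smul_eq_mul]
      have hz : ∀ i, f (Pi.single i 1) = 0 := by
        refine hli (fun i => f (Pi.single i 1)) ?_
        funext e
        have h1 : (fun i => F.ps b (y i) e) ∈ W' := (hW' _).mpr ⟨e, rfl⟩
        have h2 := hf1 h1
        rw [LinearMap.mem_ker, hf2] at h2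
        rw [Finset.sum_apply, Pi.zero_apply, ← h2]
        refine Finset.sum_congr rfl fun i _ => ?_
        simp [mul_comm]
      apply hf0
      ext i
      simpa using hz i
    intro v
    have : Multiplicative.toAdd v ∈ W' := by rw [htop]; trivial
    obtain ⟨e, he⟩ := (hW' _).mp this
    exact ⟨e, he⟩
  by_contra hcon
  push Not at hcon
  choose f hf1 hf2 using hcon
  -- count
  have hcov : Nat.card R ≤
      Nat.card (Σ b : {b : B // b ≠ 1}, {x // Φ b.1 x = Multiplicative.ofAdd (μ b.1)}) := by
    refine Nat.card_le_card_of_injective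
      (fun x => (⟨⟨f x, hf1 x⟩, ⟨x, by
        rw [hΦ]; congr 1; funext i; exact hf2 x i⟩⟩ :
        Σ b : {b : B // b ≠ 1}, {x // Φ b.1 x = Multiplicative.ofAdd (μ b.1)})) ?_
    intro x y hxy
    exact congrArg
      (fun t : (Σ b : {b : B // b ≠ 1}, {x // Φ b.1 x = Multiplicative.ofAdd (μ b.1)}) => t.2.1) hxy
  rw [Nat.card_sigma] at hcov
  have hterm : ∀ b : {b : B // b ≠ 1},
      Nat.card {x // Φ b.1 x = Multiplicative.ofAdd (μ b.1)} * 2 ^ n ≤ Nat.card R := by
    intro b
    have h1 := card_fiber_le (Φ b.1) (Multiplicative.ofAdd (μ b.1))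
    have h2 := ker_mul_of_surjective (Φ b.1) (hsurj b.1 b.2)
    have hc : Nat.card (Multiplicative (Fin n → ZMod 2)) = 2 ^ n := by
      rw [show Nat.card (Multiplicative (Fin n → ZMod 2)) = Nat.card (Fin n → ZMod 2) from rfl,
        Nat.card_fun, Nat.card_eq_fintype_card, ZMod.card, Nat.card_eq_fintype_card,
        Fintype.card_fin]
    rw [hc] at h2
    rw [← h2]
    exact Nat.mul_le_mul_right _ h1
  have hR : 0 < Nat.card R := Nat.card_pos
  have hB1 : Fintype.card {b : B // b ≠ 1} = Nat.card B - 1 := by
    rw [Fintype.card_subtype_compl, Nat.card_eq_fintype_card]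
    simp
  have h1 : Nat.card R * 2 ^ n ≤ (Nat.card B - 1) * Nat.card R := by
    calc Nat.card R * 2 ^ n ≤ (∑ b : {b : B // b ≠ 1},
          Nat.card {x // Φ b.1 x = Multiplicative.ofAdd (μ b.1)}) * 2 ^ n :=
          Nat.mul_le_mul_right _ hcov
      _ = ∑ b : {b : B // b ≠ 1},
          Nat.card {x // Φ b.1 x = Multiplicative.ofAdd (μ b.1)} * 2 ^ n := Finset.sum_mul _ _ _
      _ ≤ ∑ _b : {b : B // b ≠ 1}, Nat.card R := Finset.sum_le_sum fun b _ => hterm b
      _ = (Nat.card B - 1) * Nat.card R := by
          rw [Finset.sum_const, smul_eq_mul, Finset.card_univ, hB1]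
  have h2 : 2 ^ n ≤ Nat.card B - 1 := by
    rw [mul_comm] at h1
    exact Nat.le_of_mul_le_mul_right h1 hR
  have hB0 : 0 < Nat.card B := Nat.card_pos
  omega

end FormData

end Pool.Agent.Th36
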