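import Mathlib
import Pool.Agent.Helper36.Th.KeyA
import Pool.Agent.Helper36.Th.Eig

set_option autoImplicit false

/-!
If `∑_{b ∈ B} b = 0` on a space on which `R` acts with scalar commutators, then some nontrivial
element of `B` moves `R` very little modulo the scalars.
-/

namespace Pool.Agent.Th36

open Finset Module

/-- The bound. -/
def K0 (n : ℕ) : ℕ := n * 2 ^ ((n * (n + 1)) * (n + 1))

theorem K0_mono {a b : ℕ} (h : a ≤ b) : K0 a ≤ K0 b := by
  unfold K0
  apply Nat.mul_le_mul h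
  apply Nat.pow_le_pow_right (by norm_num)
  apply Nat.mul_le_mul (Nat.mul_le_mul h (by omega)) (by omega)

variable {G : Type} [Group G] [Finite G] {k V : Type} [Field k] [IsAlgClosed k] [AddCommGroup V]
  [Module k V] [FiniteDimensional k V]

omit [Finite G] [IsAlgClosed k] [FiniteDimensional k V] in
lemma rm (ρ : Representation k G V) (a b : G) (v : V) : ρ (a * b) v = ρ a (ρ b v) := by
  rw [map_mul]; rfl

omit [Finite G] [IsAlgClosed k] [FiniteDimensional k V] in
lemma rinv (ρ : Representation k G V) (a : G) (v : V) : ρ a (ρ a⁻¹ v) = v := by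
  rw [← rm, mul_inv_cancel, map_one]; rfl

/-- Hypotheses of the small commutator lemma. -/
structure Setup (ρ : Representation k G V) (B R Rl : Subgroup G) (X : Submodule k V) : Prop where
  two : (2 : k) ≠ 0
  X_ne : X ≠ ⊥
  BR : ∀ b ∈ B, ∀ x ∈ R, b * x * b⁻¹ ∈ R
  XR : ∀ x ∈ R, ∀ v ∈ X, ρ x v ∈ X
  XB : ∀ b ∈ B, ∀ v ∈ X, ρ b v ∈ X
  sgn : ∀ x ∈ R, ∀ y ∈ R, (∀ v ∈ X, ρ (x * y * x⁻¹ * y⁻¹) v = v) ∨
    (∀ v ∈ X, ρ (x * y * x⁻¹ * y⁻¹) v = -v)
  Rl_le : Rl ≤ R
  mem_Rl : ∀ x ∈ R, (∀ y ∈ R, ∀ v ∈ X, ρ (x * y * x⁻¹ * y⁻¹) v = v) → x ∈ Rl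
  sum : ∀ v ∈ X, ∑ᶠ b : B, ρ (b : G) v = 0

namespace Setup

variable {ρ : Representation k G V} {B R Rl : Subgroup G} {X : Submodule k V}
  (h : Setup ρ B R Rl X)

/-- `(-1)^a` for `a : ZMod 2` -/
def sg (a : ZMod 2) : k := if a = 0 then 1 else -1

omit [IsAlgClosed k] in
lemma sg_add (a b : ZMod 2) : (sg (a + b) : k) = sg a * sg b := by
  have : ∀ a b : ZMod 2, (a + b = 0 ↔ (a = 0 ↔ b = 0)) := by decide
  unfold sg
  by_cases ha : a = 0 <;> by_cases hb : b = 0 <;> simp [this, ha, hb]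

include h in
lemma sg_inj {a b : ZMod 2} (hab : (sg a : k) = sg b) : a = b := by
  have hne : (1 : k) ≠ -1 := by
    intro hh
    apply h.two
    have : (1 : k) + 1 = 0 := by nth_rewrite 2 [hh]; ring
    rw [← this]; norm_num
  have hc : ∀ a b : ZMod 2, (a = 0 ↔ b = 0) → a = b := by decide
  apply hc
  unfold sg at hab
  by_cases ha : a = 0 <;> by_cases hb : b = 0
  · simp [ha, hb]
  · simp [ha, hb] at hab; exact absurd hab hne
  · simp [ha, hb] at hab; exact absurd hab.symm hne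
  · simp [ha, hb]

open Classical in
/-- the form -/
noncomputable def fs (ρ : Representation k G V) (X : Submodule k V) (x y : G) : ZMod 2 :=
  if ∀ v ∈ X, ρ (x * y * x⁻¹ * y⁻¹) v = v then 0 else 1

include h in
lemma fs_spec {x y : G} (hx : x ∈ R) (hy : y ∈ R) :
    ∀ v ∈ X, ρ (x * y * x⁻¹ * y⁻¹) v = (sg (fs ρ X x y) : k) • v := by
  intro v hv
  unfold fs sg
  by_cases hc : ∀ v ∈ X, ρ (x * y * x⁻¹ * y⁻¹) v = v
  · rw [if_pos hc, if_pos rfl, one_smul]; exact hc v hv
  · rw [if_neg hc, if_neg (by decide)]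
    rcases h.sgn x hx y hy with h1 | h1
    · exact absurd h1 hc
    · rw [neg_smul, one_smul]; exact h1 v hv

include h in
lemma fs_unique {x y : G} (hx : x ∈ R) (hy : y ∈ R) {a : ZMod 2}
    (ha : ∀ v ∈ X, ρ (x * y * x⁻¹ * y⁻¹) v = (sg a : k) • v) : fs ρ X x y = a := by
  obtain ⟨v, hv, hv0⟩ := (Submodule.ne_bot_iff X).mp h.X_ne
  apply h.sg_inj
  have h1 := h.fs_spec hx hy v hv
  rw [ha v hv] at h1
  exact (smul_left_injective k hv0 h1).symm

include h in
lemma fs_left {x y z : G} (hx : x ∈ R) (hy : y ∈ R) (hz : z ∈ R) :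
    fs ρ X (x * y) z = fs ρ X x z + fs ρ X y z := by
  apply h.fs_unique (R.mul_mem hx hy) hz
  intro v hv
  have e : x * y * z * (x * y)⁻¹ * z⁻¹ =
      x * ((y * z * y⁻¹ * z⁻¹) * (z * x⁻¹ * z⁻¹)) := by group
  have e2 : z * x⁻¹ * z⁻¹ = x⁻¹ * (x * z * x⁻¹ * z⁻¹) := by group
  rw [e, e2, rm ρ x, rm ρ (y * z * y⁻¹ * z⁻¹), rm ρ x⁻¹, h.fs_spec hx hz v hv, map_smul, map_smul, h.fs_spec hy hz _ (h.XR _ (R.inv_mem hx) v hv),
    map_smul, map_smul, sg_add]
  rw [rinv, smul_smul]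

include h in
lemma fs_symm {x y : G} (hx : x ∈ R) (hy : y ∈ R) : fs ρ X x y = fs ρ X y x := by
  symm
  apply h.fs_unique hy hx
  intro v hv
  have h1 := h.fs_spec hx hy v hv
  have e : y * x * y⁻¹ * x⁻¹ = (x * y * x⁻¹ * y⁻¹)⁻¹ := by group
  have h2 : ρ (y * x * y⁻¹ * x⁻¹) (ρ (x * y * x⁻¹ * y⁻¹) v) = v := by
    rw [← rm, e, inv_mul_cancel, map_one]; rfl
  rw [h1, map_smul] at h2
  have h3 : (sg (fs ρ X x y) : k) * sg (fs ρ X x y) = 1 := by
    unfold sg; split_ifs <;> ring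
  calc ρ (y * x * y⁻¹ * x⁻¹) v
      = ((sg (fs ρ X x y) : k) * sg (fs ρ X x y)) • ρ (y * x * y⁻¹ * x⁻¹) v := by
        rw [h3, one_smul]
    _ = (sg (fs ρ X x y) : k) • v := by rw [← smul_smul, h2]

include h in
lemma fs_inv {b x y : G} (hb : b ∈ B) (hx : x ∈ R) (hy : y ∈ R) :
    fs ρ X (b * x * b⁻¹) (b * y * b⁻¹) = fs ρ X x y := by
  apply h.fs_unique (h.BR b hb x hx) (h.BR b hb y hy)
  intro v hv
  have e : b * x * b⁻¹ * (b * y * b⁻¹) * (b * x * b⁻¹)⁻¹ * (b * y * b⁻¹)⁻¹ =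
      b * ((x * y * x⁻¹ * y⁻¹) * b⁻¹) := by group
  rw [e, rm ρ b, rm ρ (x * y * x⁻¹ * y⁻¹), h.fs_spec hx hy _ (h.XB _ (B.inv_mem hb) v hv),
    map_smul, rinv]

/-- the form data attached to the setup -/
noncomputable def form : FormData R B where
  act b := 
    { toFun := fun x => ⟨(b : G) * x * (b : G)⁻¹, h.BR b b.2 x x.2⟩
      map_one' := by ext; simp
      map_mul' := fun x y => by ext; simp [mul_assoc] }
  act_one x := by ext; simp
  act_mul b c x := by ext; simp [mul_assoc]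
  s x y := fs ρ X x y
  add_left x y z := h.fs_left x.2 y.2 z.2
  add_right x y z := by
    rw [h.fs_symm x.2 (y * z).2, Subgroup.coe_mul, h.fs_left y.2 z.2 x.2,
      h.fs_symm y.2 x.2, h.fs_symm z.2 x.2]
  symm x y := h.fs_symm x.2 y.2
  inv b x y := h.fs_inv b.2 x.2 y.2

lemma form_s (x y : R) : h.form.s x y = fs ρ X x y := rfl

lemma form_act (b : B) (x : R) : ((h.form.act b x : R) : G) = (b : G) * x * (b : G)⁻¹ := rfl

include h in
/-- The small commutator lemma. -/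
theorem small : ∃ b ∈ B, b ≠ 1 ∧ ∃ L : Subgroup G, L ≤ R ∧ L.relIndex R ≤ K0 (Nat.card B) ∧
    ∀ t ∈ L, b * t * b⁻¹ * t⁻¹ ∈ Rl := by
  classical
  have := Fintype.ofFinite B
  by_contra hcon
  push Not at hcon
  -- all nontrivial elements have large commutator
  have hbig : ∀ b : B, b ≠ 1 →
      Nat.card (h.form.psi b).ker * K0 (Nat.card B) ≤ Nat.card R := by
    intro b hb
    by_contra hlt
    push Not at hlt
    obtain ⟨t, ht, ht2⟩ := hcon b b.2 (fun hh => hb (Subtype.ext hh))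
      ((h.form.psi b).ker.map R.subtype) (by
        rintro _ ⟨x, _, rfl⟩; exact x.2) (by
        have hidx : ((h.form.psi b).ker.map R.subtype).relIndex R = (h.form.psi b).ker.index := by
          rw [Subgroup.relIndex]
          congr 1
          ext x
          simp [Subgroup.mem_subgroupOf]
        rw [hidx]
        have h1 : Nat.card (h.form.psi b).ker * (h.form.psi b).ker.index = Nat.card R :=
          Subgroup.card_mul_index _
        rw [← h1] at hlt
        exact (Nat.lt_of_mul_lt_mul_left hlt).le)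
    obtain ⟨x, hx, rfl⟩ := ht
    apply ht2
    apply h.mem_Rl _ (R.mul_mem (h.BR b b.2 x x.2) (R.inv_mem x.2))
    intro y hy v hv
    have hx1 : h.form.ps b x = 0 := by
      have := (MonoidHom.mem_ker).mp hx
      rw [FormData.psi_apply] at this
      exact this
    have hx2 := congrFun hx1 ⟨y, hy⟩
    have hx3 : fs ρ X ((b : G) * x * (b : G)⁻¹) y + fs ρ X x y = 0 := hx2
    have hxi : fs ρ X ((x : G)⁻¹) y = fs ρ X x y := by
      have h5 := h.fs_left x.2 (R.inv_mem x.2) hy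
      have h6 : fs ρ X ((x : G) * (x : G)⁻¹) y = 0 := by
        apply h.fs_unique (R.mul_mem x.2 (R.inv_mem x.2)) hy
        intro v hv
        simp [sg]
      rw [h6] at h5
      have h7 : ∀ a b : ZMod 2, 0 = a + b → b = a := by decide
      exact h7 _ _ h5
    have h8 : fs ρ X ((b : G) * x * (b : G)⁻¹ * (x : G)⁻¹) y = 0 := by
      rw [h.fs_left (h.BR b b.2 x x.2) (R.inv_mem x.2) hy, hxi, hx3]
    have h9 := h.fs_spec (R.mul_mem (h.BR b b.2 x x.2) (R.inv_mem x.2)) hy v hv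
    rw [h8] at h9
    simpa [sg] using h9
  obtain ⟨y, hy1, hy2⟩ := h.form.exists_system (Nat.card B) (fun b hb => hbig b hb)
  -- common eigenvector
  let opS : Set (V →ₗ[k] V) := Set.range fun p : B × Fin (Nat.card B) =>
    ρ ((h.form.act p.1 (y p.2) : R) : G)
  obtain ⟨v0, hv0X, hv0, hv0e⟩ := common_eig opS _ X rfl h.X_ne
    (by rintro _ ⟨p, rfl⟩ v hv; exact h.XR _ (h.form.act p.1 (y p.2)).2 v hv)
    (by
      rintro _ ⟨p, rfl⟩ _ ⟨q, rfl⟩ v hv
      have hz : h.form.s (h.form.act p.1 (y p.2)) (h.form.act q.1 (y q.2)) = 0 := by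
        have h1 := h.form.inv p.1 (y p.2) (h.form.act (p.1⁻¹ * q.1) (y q.2))
        rw [← h.form.act_mul, mul_inv_cancel_left] at h1
        rw [h1]
        exact hy1 _ _ _
      set a := h.form.act p.1 (y p.2)
      set c := h.form.act q.1 (y q.2)
      show ρ (a : G) (ρ (c : G) v) = ρ (c : G) (ρ (a : G) v)
      have hsp := h.fs_spec a.2 c.2 (ρ ((c : G) * a) v) (h.XR _ (R.mul_mem c.2 a.2) v hv)
      rw [form_s] at hz
      rw [hz] at hsp
      have e : (a : G) * c * (a : G)⁻¹ * (c : G)⁻¹ * (c * a) = a * c := by group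
      rw [← rm, e] at hsp
      rw [← rm, ← rm, hsp]
      simp [sg])
  have hκ : ∀ (b : B) (i : Fin (Nat.card B)), ∃ c : k,
      ρ ((h.form.act b (y i) : R) : G) v0 = c • v0 := fun b i => hv0e _ ⟨(b, i), rfl⟩
  choose κ hκ using hκ
  have hκ0 : ∀ b i, κ b i ≠ 0 := by
    intro b i h0
    have h1 := hκ b i
    rw [h0, zero_smul] at h1
    have h2 : ρ ((h.form.act b (y i) : R) : G)⁻¹ (ρ ((h.form.act b (y i) : R) : G) v0) = v0 := by
      rw [← rm, inv_mul_cancel, map_one]; rfl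
    rw [h1, map_zero] at h2
    exact hv0 h2.symm
  obtain ⟨e, he⟩ := h.form.exists_good (n := Nat.card B) (Nat.lt_two_pow_self).le y hy2
    (fun b i => if κ 1 i = κ b i then 0 else 1)
  -- weights
  set ve : V := ρ (e : G) v0 with hve
  have hveX : ve ∈ X := h.XR _ e.2 v0 hv0X
  have hve0 : ve ≠ 0 := by
    intro h0
    have h2 : ρ (e : G)⁻¹ ve = v0 := by
      rw [hve, ← rm, inv_mul_cancel, map_one]; rfl
    rw [h0, map_zero] at h2
    exact hv0 h2.symm
  have hwe : ∀ b i, ρ ((h.form.act b (y i) : R) : G) ve =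
      ((sg (h.form.s (h.form.act b (y i)) e) : k) * κ b i) • ve := by
    intro b i
    set u := h.form.act b (y i) with hu
    have e1 : (u : G) * e = ((u : G) * e * (u : G)⁻¹ * (e : G)⁻¹) * (e * u) := by group
    rw [hve, ← rm, e1, rm, h.fs_spec u.2 e.2 _ (h.XR _ (R.mul_mem e.2 u.2) v0 hv0X), rm, hκ b i,
      map_smul, smul_smul, form_s]
  have hwb : ∀ (b : B) (i : Fin (Nat.card B)), ρ ((y i : R) : G) (ρ (b : G) ve) =
      ((sg (h.form.s (h.form.act b⁻¹ (y i)) e) : k) * κ b⁻¹ i) • ρ (b : G) ve := by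
    intro b i
    have e1 : ((y i : R) : G) * b = b * ((h.form.act b⁻¹ (y i) : R) : G) := by
      rw [form_act]; simp [mul_assoc]
    rw [← rm, e1, rm, hwe, map_smul]
  have hsum : ∑ b : B, ρ (b : G) ve = 0 := by
    rw [← finsum_eq_sum_of_fintype]
    exact h.sum ve hveX
  have hsep := sep (fun i : Fin (Nat.card B) => ρ ((y i : R) : G))
    (fun (b : B) i => (sg (h.form.s (h.form.act b⁻¹ (y i)) e) : k) * κ b⁻¹ i)
    (fun i => (sg (h.form.s (y i) e) : k) * κ 1 i) _ Finset.univ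
    (fun b => ρ (b : G) ve) rfl (fun b _ i => hwb b i) hsum
  rw [Finset.sum_eq_single (1 : B)] at hsep
  · rw [if_pos] at hsep
    · have : ρ ((1 : B) : G) ve = ve := by simp
      rw [this] at hsep
      exact hve0 hsep
    · funext i
      simp [h.form.act_one]
  · intro b _ hb
    rw [if_neg]
    intro hch
    obtain ⟨i, hi⟩ := he b⁻¹ (inv_ne_one.mpr hb)
    apply hi
    have h1 := congrFun hch i
    show h.form.s (h.form.act b⁻¹ (y i)) e + h.form.s (y i) e = _
    have hadd : (sg (h.form.s (h.form.act b⁻¹ (y i)) e + h.form.s (y i) e) : k) * κ b⁻¹ i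
        = κ 1 i := by
      rw [sg_add]
      have hsq : (sg (h.form.s (y i) e) : k) * sg (h.form.s (y i) e) = 1 := by
        unfold sg; split_ifs <;> ring
      calc (sg (h.form.s (h.form.act b⁻¹ (y i)) e) : k) * sg (h.form.s (y i) e) * κ b⁻¹ i
          = sg (h.form.s (y i) e) * ((sg (h.form.s (h.form.act b⁻¹ (y i)) e) : k) * κ b⁻¹ i) := by
            ring
        _ = sg (h.form.s (y i) e) * ((sg (h.form.s (y i) e) : k) * κ 1 i) := by rw [h1]
        _ = κ 1 i := by rw [← mul_assoc, hsq, one_mul]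
    split_ifs with hκe
    · apply h.sg_inj
      rw [hκe] at hadd
      have h3 := mul_right_cancel₀ (hκ0 b⁻¹ i) (hadd.trans (one_mul _).symm)
      rw [h3]; simp [sg]
    · by_contra hne
      have h4 : ∀ a : ZMod 2, a ≠ 1 → a = 0 := by decide
      rw [h4 _ hne] at hadd
      apply hκe
      simpa [sg] using hadd.symm
  · intro hh; exact absurd (Finset.mem_univ _) hh

end Setup

end Pool.Agent.Th36
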