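import Mathlib
import Pool.Agent.Helper9.Th.Sol
import Pool.Agent.Helper9.Th.BCint

set_option autoImplicit false

/-!
The subgroups `D ≤ R ≤ Q` of a normal `2`-subgroup `Q`.
-/

namespace Pool.Agent.Th36

open Subgroup Pool.Agent.Th

variable {G : Type} [Group G] [Finite G]

omit [Finite G] in
theorem exists_step {p : ℕ → Prop} (h0 : ¬ p 0) (h : ∃ n, p n) : ∃ n, ¬ p n ∧ p (n + 1) := by
  obtain ⟨n, hn⟩ := h
  induction n with
  | zero => exact absurd hn h0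
  | succ n ih =>
    by_cases hp : p n
    · exact ih hp
    · exact ⟨n, hp, hn⟩

/-- iterated commutators with `Q` -/
def cser (C Q : Subgroup G) : ℕ → Subgroup G
  | 0 => C
  | n + 1 => ⁅cser C Q n, Q⁆

/-- `D` is a maximal normal abelian subgroup inside `Q`. -/
structure IsD (Q D : Subgroup G) : Prop where
  Qn : Q.Normal
  Q2 : IsPGroup 2 Q
  Dn : D.Normal
  le : D ≤ Q
  comm : ∀ x ∈ D, ∀ y ∈ D, x * y = y * x
  max : ∀ E : Subgroup G, E.Normal → E ≤ Q → (∀ x ∈ E, ∀ y ∈ E, x * y = y * x) → D ≤ E → E ≤ D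

theorem exists_D (Q : Subgroup G) (hQ : Q.Normal) (hQ2 : IsPGroup 2 Q) : ∃ D, IsD Q D := by
  classical
  let S : Set (Subgroup G) := {D | D.Normal ∧ D ≤ Q ∧ ∀ x ∈ D, ∀ y ∈ D, x * y = y * x}
  have hne : S.Nonempty := ⟨⊥, inferInstance, bot_le, by
    intro x hx y hy
    rw [mem_bot] at hx hy
    rw [hx, hy]⟩
  obtain ⟨D, hD⟩ := (Set.toFinite S).exists_maximal hne
  exact ⟨D, hQ, hQ2, hD.prop.1, hD.prop.2.1, hD.prop.2.2, fun E h1 h2 h3 h4 =>
    hD.le_of_ge ⟨h1, h2, h3⟩ h4⟩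

variable {Q D : Subgroup G}

namespace IsD

/-- The subgroup `R`. -/
def R (h : IsD Q D) : Subgroup G where
  carrier := {x | x ∈ Q ∧ (∀ d ∈ D, x * d = d * x) ∧ x * x ∈ D ∧
    ∀ y ∈ Q, x * y * x⁻¹ * y⁻¹ ∈ D}
  one_mem' := ⟨Q.one_mem, by simp, by simp, by simp⟩
  mul_mem' := by
    rintro x y ⟨hx1, hx2, hx3, hx4⟩ ⟨hy1, hy2, hy3, hy4⟩
    have hDn := h.Dn
    refine ⟨Q.mul_mem hx1 hy1, ?_, ?_, ?_⟩
    · intro d hd
      rw [mul_assoc, hy2 d hd, ← mul_assoc, hx2 d hd, mul_assoc]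
    · have h1 : x⁻¹ * (x * y * x⁻¹ * y⁻¹)⁻¹ * x ∈ D := by
        have := hDn.conj_mem _ (D.inv_mem (hx4 y hy1)) x⁻¹
        simpa using this
      have e : x * y * (x * y) = (x * x) * (x⁻¹ * (x * y * x⁻¹ * y⁻¹)⁻¹ * x) * (y * y) := by
        group
      rw [e]
      exact D.mul_mem (D.mul_mem hx3 h1) hy3
    · intro z hz
      have e : x * y * z * (x * y)⁻¹ * z⁻¹ =
          (x * (y * z * y⁻¹ * z⁻¹) * x⁻¹) * (x * z * x⁻¹ * z⁻¹) := by group
      rw [e]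
      exact D.mul_mem (hDn.conj_mem _ (hy4 z hz) x) (hx4 z hz)
  inv_mem' := by
    rintro x ⟨hx1, hx2, hx3, hx4⟩
    have hDn := h.Dn
    refine ⟨Q.inv_mem hx1, ?_, ?_, ?_⟩
    · intro d hd
      have := hx2 d hd
      calc x⁻¹ * d = x⁻¹ * (d * x) * x⁻¹ := by group
        _ = x⁻¹ * (x * d) * x⁻¹ := by rw [this]
        _ = d * x⁻¹ := by group
    · have := D.inv_mem hx3
      simpa using this
    · intro z hz
      have := hDn.conj_mem _ (D.inv_mem (hx4 z hz)) x⁻¹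
      have e : x⁻¹ * z * (x⁻¹)⁻¹ * z⁻¹ = x⁻¹ * (x * z * x⁻¹ * z⁻¹)⁻¹ * (x⁻¹)⁻¹ := by group
      rw [e]; exact this

variable (h : IsD Q D)

theorem mem_R {x : G} : x ∈ h.R ↔ x ∈ Q ∧ (∀ d ∈ D, x * d = d * x) ∧ x * x ∈ D ∧
    ∀ y ∈ Q, x * y * x⁻¹ * y⁻¹ ∈ D := Iff.rfl

theorem R_normal : h.R.Normal := by
  have hDn := h.Dn
  have hQn := h.Qn
  constructor
  rintro x ⟨hx1, hx2, hx3, hx4⟩ g
  refine ⟨hQn.conj_mem _ hx1 g, ?_, ?_, ?_⟩
  · intro d hd
    have h1 := hx2 (g⁻¹ * d * g) (by simpa using hDn.conj_mem _ hd g⁻¹)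
    calc g * x * g⁻¹ * d = g * (x * (g⁻¹ * d * g)) * g⁻¹ := by group
      _ = g * ((g⁻¹ * d * g) * x) * g⁻¹ := by rw [h1]
      _ = d * (g * x * g⁻¹) := by group
  · have := hDn.conj_mem _ hx3 g
    have e : g * x * g⁻¹ * (g * x * g⁻¹) = g * (x * x) * g⁻¹ := by group
    rw [e]; exact this
  · intro y hy
    have h1 := hDn.conj_mem _ (hx4 (g⁻¹ * y * g) (by simpa using hQn.conj_mem _ hy g⁻¹)) g
    have e : g * x * g⁻¹ * y * (g * x * g⁻¹)⁻¹ * y⁻¹ =
        g * (x * (g⁻¹ * y * g) * x⁻¹ * (g⁻¹ * y * g)⁻¹) * g⁻¹ := by group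
    rw [e]; exact h1

theorem D_le_R : D ≤ h.R := by
  intro d hd
  refine ⟨h.le hd, fun e he => h.comm d hd e he, D.mul_mem hd hd, ?_⟩
  intro y hy
  have := h.Dn.conj_mem _ (D.inv_mem hd) y
  have e : d * y * d⁻¹ * y⁻¹ = d * (y * d⁻¹ * y⁻¹) := by group
  rw [e]; exact D.mul_mem hd this

theorem R_le : h.R ≤ Q := fun _ hx => hx.1

theorem comm_R {x y : G} (hx : x ∈ h.R) (hy : y ∈ h.R) : x * y * x⁻¹ * y⁻¹ ∈ D :=
  hx.2.2.2 y hy.1

theorem cent_D {x d : G} (hx : x ∈ h.R) (hd : d ∈ D) : x * d = d * x := hx.2.1 d hd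

/-- `Z(R) = D` -/
theorem center_R {x : G} (hx : x ∈ h.R) (hc : ∀ y ∈ h.R, x * y = y * x) : x ∈ D := by
  have hRn := h.R_normal
  have hle := h.max (h.R ⊓ centralizer (h.R : Set G)) (by infer_instance)
    (inf_le_left.trans h.R_le)
    (by
      rintro u ⟨hu1, hu2⟩ v ⟨hv1, hv2⟩
      exact (mem_centralizer_iff.mp hu2 v hv1).symm)
    (by
      intro d hd
      refine ⟨h.D_le_R hd, mem_centralizer_iff.mpr fun r hr => h.cent_D hr hd⟩)
  exact hle ⟨hx, mem_centralizer_iff.mpr fun r hr => (hc r hr).symm⟩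

/-- `C_Q(R) = D` -/
theorem cent_R {x : G} (hx : x ∈ Q) (hc : ∀ y ∈ h.R, x * y = y * x) : x ∈ D := by
  classical
  have hRn := h.R_normal
  have hQn := h.Qn
  have hDn := h.Dn
  set C : Subgroup G := Q ⊓ centralizer (h.R : Set G) with hC
  have hCn : C.Normal := by infer_instance
  suffices hCD : C ≤ D from hCD ⟨hx, mem_centralizer_iff.mpr fun r hr => (hc r hr).symm⟩
  by_contra hnot
  -- descending series
  let N : ℕ → Subgroup G := cser C Q
  have hN0 : N 0 = C := rfl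
  have hNs : ∀ n, N (n + 1) = ⁅N n, Q⁆ := fun n => rfl
  have hNn : ∀ n, (N n).Normal ∧ N n ≤ C := by
    intro n
    induction n with
    | zero => exact ⟨hCn, le_rfl⟩
    | succ n ih =>
      have hin := ih.1
      rw [hNs]
      have hle : ⁅N n, Q⁆ ≤ N n := Subgroup.commutator_le_left _ _
      exact ⟨Subgroup.commutator_normal (N n) Q, hle.trans ih.2⟩
  have hnil : Group.IsNilpotent Q := h.Q2.isNilpotent
  obtain ⟨n0, hn0⟩ := (Subgroup.isNilpotent_iff_lowerCentralSeries Q).mp hnil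
  have hlcs : ∀ n, N n ≤ Q.lowerCentralSeries n := by
    intro n
    induction n with
    | zero => exact inf_le_left
    | succ n ih =>
      rw [hNs, Subgroup.lowerCentralSeries_succ]
      exact Subgroup.commutator_mono ih le_rfl
  have hex : ∃ n, N n ≤ D := ⟨n0, (hlcs n0).trans (by rw [hn0]; exact bot_le)⟩
  obtain ⟨m, hmD, hmD'⟩ := exists_step hnot hex
  have hmD' : ⁅N m, Q⁆ ≤ D := hmD'
  obtain ⟨u, huN, huD⟩ := SetLike.not_le_iff_exists.mp hmD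
  -- all powers of u
  have hpow : ∃ j : ℕ, u ^ (2 ^ j) ∈ D := by
    obtain ⟨j, hj⟩ := isTwo_of_isPGroup h.Q2 ((hNn m).2.trans inf_le_left huN)
    exact ⟨j, by rw [hj]; exact D.one_mem⟩
  obtain ⟨j, hw1, hw2'⟩ := exists_step (p := fun j => u ^ (2 ^ j) ∈ D)
    (by rw [pow_zero, pow_one]; exact huD) hpow
  have hw2 : u ^ (2 ^ j) * u ^ (2 ^ j) ∈ D := by
    have hw3 : u ^ (2 ^ (j + 1)) ∈ D := hw2'
    rw [pow_succ, mul_two, pow_add] at hw3
    exact hw3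
  have hwN : u ^ (2 ^ j) ∈ N m := Subgroup.pow_mem _ huN _
  have hwC := (hNn m).2 hwN
  have hwR : u ^ (2 ^ j) ∈ h.R := by
    refine ⟨hwC.1, fun d hd => ?_, hw2, fun y hy => ?_⟩
    · exact (mem_centralizer_iff.mp hwC.2 d (h.D_le_R hd)).symm
    · have := Subgroup.commutator_mem_commutator hwN hy
      rw [commutatorElement_def] at this
      exact hmD' this
  exact hw1 (h.center_R hwR fun y hy => (mem_centralizer_iff.mp hwC.2 y hy).symm)

/-- odd elements centralising `D` and `R / D` centralise `Q` -/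
theorem odd_central {c : G} (hc : ∃ n : ℕ, c ^ (2 * n + 1) = 1)
    (hcD : ∀ d ∈ D, c * d = d * c) (hcR : ∀ x ∈ h.R, c * x * c⁻¹ * x⁻¹ ∈ D) :
    ∀ y ∈ Q, c * y = y * c := by
  have key : ∀ y ∈ Q, c * y * c⁻¹ * y⁻¹ ∈ D → c * y = y * c := by
    intro y _ hd
    set δ := c * y * c⁻¹ * y⁻¹ with hδ
    have h1 : c * y * c⁻¹ = δ * y := by rw [hδ]; group
    have hδc := hcD δ hd
    have hpow : ∀ i : ℕ, c ^ i * y * (c ^ i)⁻¹ = δ ^ i * y := by
      intro i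
      induction i with
      | zero => simp
      | succ i ih =>
        calc c ^ (i + 1) * y * (c ^ (i + 1))⁻¹ = c * (c ^ i * y * (c ^ i)⁻¹) * c⁻¹ := by
              rw [pow_succ']; group
          _ = c * (δ ^ i * y) * c⁻¹ := by rw [ih]
          _ = (c * δ ^ i * c⁻¹) * (c * y * c⁻¹) := by group
          _ = δ ^ i * (δ * y) := by
              rw [h1]
              have : c * δ ^ i = δ ^ i * c := (Commute.pow_right (show Commute c δ from hδc) i)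
              rw [this]; group
          _ = δ ^ (i + 1) * y := by rw [pow_succ]; group
    obtain ⟨n, hn⟩ := hc
    have h2 := hpow (2 * n + 1)
    rw [hn] at h2
    have h3 : δ ^ (2 * n + 1) = 1 := by
      have : y = δ ^ (2 * n + 1) * y := by simpa using h2
      exact (mul_eq_right.mp this.symm)
    have h4 : δ = 1 := eq_one_of_two_odd (isTwo_of_isPGroup h.Q2 (h.le hd)) ⟨n, h3⟩
    rw [h4, one_mul] at h1
    calc c * y = (c * y * c⁻¹) * c := by group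
      _ = y * c := by rw [h1]
  have hR : ∀ x ∈ h.R, c * x = x * c := fun x hx => key x (h.R_le hx) (hcR x hx)
  intro y hy
  refine key y hy (h.cent_R ?_ ?_)
  · exact Q.mul_mem (h.Qn.conj_mem _ hy c) (Q.inv_mem hy)
  · intro r hr
    have hRn := h.R_normal
    have h1 : y⁻¹ * r * y ∈ h.R := by simpa using hRn.conj_mem _ hr y⁻¹
    have h2 := hR _ h1
    have h3 := hR _ hr
    have h4 : c⁻¹ * (y⁻¹ * r * y) = (y⁻¹ * r * y) * c⁻¹ := by
      calc c⁻¹ * (y⁻¹ * r * y) = c⁻¹ * ((y⁻¹ * r * y) * c) * c⁻¹ := by group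
        _ = c⁻¹ * (c * (y⁻¹ * r * y)) * c⁻¹ := by rw [h2]
        _ = (y⁻¹ * r * y) * c⁻¹ := by group
    calc c * y * c⁻¹ * y⁻¹ * r = c * y * (c⁻¹ * (y⁻¹ * r * y)) * y⁻¹ := by group
      _ = c * y * ((y⁻¹ * r * y) * c⁻¹) * y⁻¹ := by rw [h4]
      _ = (c * r) * y * c⁻¹ * y⁻¹ := by group
      _ = (r * c) * y * c⁻¹ * y⁻¹ := by rw [h3]
      _ = r * (c * y * c⁻¹ * y⁻¹) := by group

end IsD

end Pool.Agent.Th36
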