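import Mathlib
import Pool.Agent.Helper36.Th.Small
import Pool.Agent.Helper36.Th.Struct

set_option autoImplicit false
set_option linter.unusedSectionVars false

/-!
Joint weight spaces.
-/

namespace Pool.Agent.Th36

open Subgroup Pool.Agent.Th Module

variable {G : Type} [Group G] [Finite G] {k V : Type} [Field k] [IsAlgClosed k] [AddCommGroup V]
  [Module k V] [FiniteDimensional k V]

lemma rinv' (ρ : Representation k G V) (a : G) (v : V) : ρ a⁻¹ (ρ a v) = v := by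
  rw [← rm, inv_mul_cancel, map_one]; rfl

lemma rne (ρ : Representation k G V) (a : G) {v : V} (hv : v ≠ 0) : ρ a v ≠ 0 := by
  intro h
  apply hv
  rw [← rinv' ρ a v, h, map_zero]

/-- weight space of `D` -/
def Xl (ρ : Representation k G V) (D : Subgroup G) (lam : G → k) : Submodule k V where
  carrier := {u | ∀ d ∈ D, ρ d u = lam d • u}
  zero_mem' := by intro d _; simp
  add_mem' := by
    intro u v hu hv d hd
    rw [map_add, hu d hd, hv d hd, smul_add]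
  smul_mem' := by
    intro c u hu d hd
    rw [map_smul, hu d hd, smul_comm]

variable {Q D : Subgroup G} (h : IsD Q D) (ρ : Representation k G V)

lemma mem_Xl {lam : G → k} {u : V} : u ∈ Xl ρ D lam ↔ ∀ d ∈ D, ρ d u = lam d • u := Iff.rfl

/-- `R` preserves the weight spaces of `D`. -/
lemma R_Xl {lam : G → k} {x : G} (hx : x ∈ h.R) {u : V} (hu : u ∈ Xl ρ D lam) :
    ρ x u ∈ Xl ρ D lam := by
  intro d hd
  rw [← rm, ← h.cent_D hx hd, rm, hu d hd, map_smul]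

/-- The subgroup `R_λ`. -/
def Rl (lam : G → k) : Subgroup G where
  carrier := {x | x ∈ h.R ∧ ∀ y ∈ h.R, ∀ u ∈ Xl ρ D lam, ρ (x * y * x⁻¹ * y⁻¹) u = u}
  one_mem' := ⟨h.R.one_mem, by intro y _ u _; simp⟩
  mul_mem' := by
    rintro x x' ⟨hx, hx2⟩ ⟨hx', hx2'⟩
    refine ⟨h.R.mul_mem hx hx', fun y hy u hu => ?_⟩
    have e : x * x' * y * (x * x')⁻¹ * y⁻¹ =
        x * (x' * y * x'⁻¹ * y⁻¹) * x⁻¹ * (x * y * x⁻¹ * y⁻¹) := by group
    have e2 : x * (x' * y * x'⁻¹ * y⁻¹) * x⁻¹ = x' * y * x'⁻¹ * y⁻¹ := by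
      rw [h.cent_D hx (h.comm_R hx' hy)]; group
    rw [e, e2, rm, hx2 y hy u hu, hx2' y hy u hu]
  inv_mem' := by
    rintro x ⟨hx, hx2⟩
    refine ⟨h.R.inv_mem hx, fun y hy u hu => ?_⟩
    have e2 : (x⁻¹ * y * (x⁻¹)⁻¹ * y⁻¹) * (x * y * x⁻¹ * y⁻¹) = 1 := by
      have h1 := h.cent_D (h.R.inv_mem hx) (h.comm_R hx hy)
      have e3 : (x⁻¹ * y * (x⁻¹)⁻¹ * y⁻¹) * (x⁻¹ * (x * y * x⁻¹ * y⁻¹) * x) = 1 := by group
      rw [h1] at e3
      simpa using e3
    have h3 := hx2 y hy u hu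
    rw [← h3, ← rm, e2, map_one]
    exact h3.symm ▸ rfl

lemma mem_Rl {lam : G → k} {x : G} : x ∈ Rl h ρ lam ↔
    x ∈ h.R ∧ ∀ y ∈ h.R, ∀ u ∈ Xl ρ D lam, ρ (x * y * x⁻¹ * y⁻¹) u = u := Iff.rfl

lemma Rl_le (lam : G → k) : Rl h ρ lam ≤ h.R := fun _ hx => hx.1

lemma D_le_Rl (lam : G → k) : D ≤ Rl h ρ lam := by
  intro d hd
  refine ⟨h.D_le_R hd, fun y hy u hu => ?_⟩
  have : d * y * d⁻¹ * y⁻¹ = 1 := by rw [← h.cent_D hy hd]; group
  rw [this, map_one]; rfl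

/-- joint weight space -/
def Xw (lam nu : G → k) : Submodule k V where
  carrier := {u | u ∈ Xl ρ D lam ∧ ∀ x ∈ Rl h ρ lam, ρ x u = nu x • u}
  zero_mem' := ⟨Submodule.zero_mem _, by intro d _; simp⟩
  add_mem' := by
    rintro u v ⟨hu1, hu⟩ ⟨hv1, hv⟩
    refine ⟨Submodule.add_mem _ hu1 hv1, fun d hd => ?_⟩
    rw [map_add, hu d hd, hv d hd, smul_add]
  smul_mem' := by
    rintro c u ⟨hu1, hu⟩
    refine ⟨Submodule.smul_mem _ c hu1, fun d hd => ?_⟩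
    rw [map_smul, hu d hd, smul_comm]

lemma mem_Xw {lam nu : G → k} {u : V} : u ∈ Xw h ρ lam nu ↔
    u ∈ Xl ρ D lam ∧ ∀ x ∈ Rl h ρ lam, ρ x u = nu x • u := Iff.rfl

/-- commutation on the weight space -/
lemma comm_on {lam : G → k} {x y : G} (hx : x ∈ Rl h ρ lam) (hy : y ∈ h.R) {u : V}
    (hu : u ∈ Xl ρ D lam) : ρ x (ρ y u) = ρ y (ρ x u) := by
  have e : x * y = (x * y * x⁻¹ * y⁻¹) * (y * x) := by group
  rw [← rm, e, rm, hx.2 y hy _ (by
    rw [rm]; exact R_Xl h ρ hy (R_Xl h ρ hx.1 hu)), rm]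

lemma R_Xw {lam nu : G → k} {y : G} (hy : y ∈ h.R) {u : V} (hu : u ∈ Xw h ρ lam nu) :
    ρ y u ∈ Xw h ρ lam nu := by
  refine ⟨R_Xl h ρ hy hu.1, fun x hx => ?_⟩
  rw [comm_on h ρ hx hy hu.1, hu.2 x hx, map_smul]

/-- existence of the second weight -/
lemma exists_nu {lam : G → k} (hne : Xl ρ D lam ≠ ⊥) : ∃ nu, Xw h ρ lam nu ≠ ⊥ := by
  classical
  obtain ⟨v, hv, hv0, hvS⟩ := common_eig (Set.range fun x : Rl h ρ lam => ρ (x : G)) _
    (Xl ρ D lam) rfl hne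
    (by rintro _ ⟨x, rfl⟩ u hu; exact R_Xl h ρ x.2.1 hu)
    (by
      rintro _ ⟨x, rfl⟩ _ ⟨y, rfl⟩ u hu
      exact comm_on h ρ x.2 y.2.1 hu)
  choose nu hnu using fun x : Rl h ρ lam => hvS _ ⟨x, rfl⟩
  refine ⟨fun g => if hg : g ∈ Rl h ρ lam then nu ⟨g, hg⟩ else 0, ?_⟩
  rw [Submodule.ne_bot_iff]
  refine ⟨v, ⟨hv, fun x hx => ?_⟩, hv0⟩
  show ρ x v = (if hg : x ∈ Rl h ρ lam then nu ⟨x, hg⟩ else 0) • v
  rw [dif_pos hx]
  exact hnu ⟨x, hx⟩

/-- stabiliser -/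
def Hw (lam nu : G → k) : Subgroup G where
  carrier := {g | ∀ u ∈ Xw h ρ lam nu, ρ g u ∈ Xw h ρ lam nu}
  one_mem' := by intro u hu; simpa using hu
  mul_mem' := by
    intro a b ha hb u hu
    rw [rm]
    exact ha _ (hb _ hu)
  inv_mem' := by
    intro g hg u hu
    have hpow : ∀ n : ℕ, ∀ u ∈ Xw h ρ lam nu, ρ (g ^ n) u ∈ Xw h ρ lam nu := by
      intro n
      induction n with
      | zero => intro u hu; simpa using hu
      | succ n ih =>
        intro u hu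
        rw [pow_succ, rm]
        exact ih _ (hg _ hu)
    have h1 : g⁻¹ = g ^ (orderOf g - 1) := by
      have h2 := pow_orderOf_eq_one g
      have h3 : orderOf g = (orderOf g - 1) + 1 := by
        have := orderOf_pos g; omega
      rw [h3, pow_succ] at h2
      exact (eq_inv_of_mul_eq_one_left h2).symm
    rw [h1]
    exact hpow _ u hu

lemma mem_Hw {lam nu : G → k} {g : G} : g ∈ Hw h ρ lam nu ↔
    ∀ u ∈ Xw h ρ lam nu, ρ g u ∈ Xw h ρ lam nu := Iff.rfl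

section

variable {lam nu : G → k}

include h in
/-- weight of a translate -/
lemma translate {g : G} {u : V} (hu : u ∈ Xl ρ D lam) {d : G} (hd : d ∈ D) :
    ρ d (ρ g u) = lam (g⁻¹ * d * g) • ρ g u := by
  have hd' : g⁻¹ * d * g ∈ D := by simpa using h.Dn.conj_mem _ hd g⁻¹
  have e : d * g = g * (g⁻¹ * d * g) := by group
  rw [← rm, e, rm, hu _ hd', map_smul]

include h in
lemma pres_Xl {g : G} (hg : ∀ d ∈ D, lam (g⁻¹ * d * g) = lam d) {u : V}
    (hu : u ∈ Xl ρ D lam) : ρ g u ∈ Xl ρ D lam := by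
  intro d hd
  rw [translate h ρ hu hd, hg d hd]

include h in
lemma inv_cond {g : G} (hg : ∀ d ∈ D, lam (g⁻¹ * d * g) = lam d) :
    ∀ d ∈ D, lam (g⁻¹⁻¹ * d * g⁻¹) = lam d := by
  intro d hd
  have := hg (g * d * g⁻¹) (h.Dn.conj_mem _ hd g)
  rw [inv_inv, ← this]
  congr 1
  group

lemma conj_Rl {g : G} (hg : ∀ d ∈ D, lam (g⁻¹ * d * g) = lam d) {x : G}
    (hx : x ∈ Rl h ρ lam) : g * x * g⁻¹ ∈ Rl h ρ lam := by
  have hRn := h.R_normal
  refine ⟨hRn.conj_mem _ hx.1 g, fun y hy u hu => ?_⟩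
  have hy' : g⁻¹ * y * g ∈ h.R := by simpa using hRn.conj_mem _ hy g⁻¹
  have e : g * x * g⁻¹ * y * (g * x * g⁻¹)⁻¹ * y⁻¹ =
      g * ((x * (g⁻¹ * y * g) * x⁻¹ * (g⁻¹ * y * g)⁻¹) * g⁻¹) := by group
  rw [e, rm ρ g, rm ρ (x * (g⁻¹ * y * g) * x⁻¹ * (g⁻¹ * y * g)⁻¹), hx.2 _ hy' _
    (pres_Xl h ρ (inv_cond h hg) hu), rinv]

lemma conj_Rl' {g : G} (hg : ∀ d ∈ D, lam (g⁻¹ * d * g) = lam d) {x : G}
    (hx : x ∈ Rl h ρ lam) : g⁻¹ * x * g ∈ Rl h ρ lam := by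
  have := conj_Rl h ρ (inv_cond h hg) hx
  simpa using this

/-- characterisation of the stabiliser -/
lemma mem_Hw_iff (hne : Xw h ρ lam nu ≠ ⊥) {g : G} : g ∈ Hw h ρ lam nu ↔
    (∀ d ∈ D, lam (g⁻¹ * d * g) = lam d) ∧ ∀ x ∈ Rl h ρ lam, nu (g⁻¹ * x * g) = nu x := by
  obtain ⟨u, hu, hu0⟩ := (Submodule.ne_bot_iff _).mp hne
  constructor
  · intro hg
    have h1 : ∀ d ∈ D, lam (g⁻¹ * d * g) = lam d := by
      intro d hd
      have ha := translate h ρ (g := g) hu.1 hd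
      have hb := (hg u hu).1 d hd
      rw [ha] at hb
      exact smul_left_injective k (rne ρ g hu0) hb
    refine ⟨h1, fun x hx => ?_⟩
    have hx' := conj_Rl' h ρ h1 hx
    have ha : ρ x (ρ g u) = nu (g⁻¹ * x * g) • ρ g u := by
      have e : x * g = g * (g⁻¹ * x * g) := by group
      rw [← rm, e, rm, hu.2 _ hx', map_smul]
    have hb := (hg u hu).2 x hx
    rw [ha] at hb
    exact smul_left_injective k (rne ρ g hu0) hb
  · rintro ⟨h1, h2⟩ v hv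
    refine ⟨pres_Xl h ρ h1 hv.1, fun x hx => ?_⟩
    have e : x * g = g * (g⁻¹ * x * g) := by group
    rw [← rm, e, rm, hv.2 _ (conj_Rl' h ρ h1 hx), map_smul, h2 x hx]

/-- the partial sums over stabilisers vanish -/
theorem star {A : Subgroup G} (hsum : ∀ v : V, ∑ᶠ a : A, ρ (a : G) v = 0)
    (hne : Xw h ρ lam nu ≠ ⊥) (g : G) {u : V} (hu : u ∈ Xw h ρ lam nu) [Fintype A] :
    (∑ a : A, open Classical in if g⁻¹ * (a : G) * g ∈ Hw h ρ lam nu then
      ρ (g⁻¹ * (a : G) * g) u else 0) = 0 := by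
  classical
  set w : A → V := fun a => ρ (g⁻¹ * (a : G) * g) u with hw
  have h0 : ∑ a ∈ Finset.univ, w a = 0 := by
    have h1 := hsum (ρ g u)
    rw [finsum_eq_sum_of_fintype] at h1
    have h2 : ρ g⁻¹ (∑ a : A, ρ (a : G) (ρ g u)) = 0 := by rw [h1, map_zero]
    rw [map_sum] at h2
    rw [← h2]
    refine Finset.sum_congr rfl fun a _ => ?_
    show ρ (g⁻¹ * (a : G) * g) u = _
    rw [mul_assoc, rm, rm]
  have hs1 := sep (fun d : D => ρ (d : G))
    (fun (a : A) (d : D) => lam ((g⁻¹ * (a : G) * g)⁻¹ * (d : G) * (g⁻¹ * (a : G) * g)))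
    (fun d => lam (d : G)) _ Finset.univ w rfl
    (fun a _ d => translate h ρ hu.1 d.2) h0
  rw [← Finset.sum_filter] at hs1
  set S := Finset.univ.filter (fun a : A =>
    (fun d : D => lam ((g⁻¹ * (a : G) * g)⁻¹ * (d : G) * (g⁻¹ * (a : G) * g))) =
      fun d : D => lam (d : G)) with hS
  have hmemS : ∀ a : A, a ∈ S ↔
      ∀ d ∈ D, lam ((g⁻¹ * (a : G) * g)⁻¹ * d * (g⁻¹ * (a : G) * g)) = lam d := by
    intro a
    rw [hS, Finset.mem_filter]
    constructor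
    · intro hh d hd
      exact congrFun hh.2 ⟨d, hd⟩
    · intro hh
      exact ⟨Finset.mem_univ _, funext fun d => hh d d.2⟩
  have hs2 := sep (fun x : Rl h ρ lam => ρ (x : G))
    (fun (a : A) (x : Rl h ρ lam) =>
      nu ((g⁻¹ * (a : G) * g)⁻¹ * (x : G) * (g⁻¹ * (a : G) * g)))
    (fun x => nu (x : G)) _ S w rfl
    (fun a ha x => by
      have hc := (hmemS a).mp ha
      have hx' := conj_Rl' h ρ hc x.2
      have e : (x : G) * (g⁻¹ * (a : G) * g) = (g⁻¹ * (a : G) * g) *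
        ((g⁻¹ * (a : G) * g)⁻¹ * (x : G) * (g⁻¹ * (a : G) * g)) := by group
      show ρ (x : G) (ρ (g⁻¹ * (a : G) * g) u) = _
      rw [← rm, e, rm, hu.2 _ hx', map_smul]) hs1
  rw [← Finset.sum_filter] at hs2
  refine Eq.trans ?_ hs2
  rw [← Finset.sum_filter]
  refine Finset.sum_congr ?_ fun _ _ => rfl
  ext a
  rw [Finset.mem_filter, Finset.mem_filter, hmemS, mem_Hw_iff h ρ hne]
  simp only [Finset.mem_univ, true_and]
  constructor
  · rintro ⟨h1, h2⟩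
    exact ⟨h1, funext fun x => h2 x x.2⟩
  · rintro ⟨h1, h2⟩
    exact ⟨h1, fun x hx => congrFun h2 ⟨x, hx⟩⟩

theorem inter_ne_bot {A : Subgroup G} (hsum : ∀ v : V, ∑ᶠ a : A, ρ (a : G) v = 0)
    (hne : Xw h ρ lam nu ≠ ⊥) (g : G) : A ⊓ cj g (Hw h ρ lam nu) ≠ ⊥ := by
  classical
  have := Fintype.ofFinite A
  intro hbot
  obtain ⟨u, hu, hu0⟩ := (Submodule.ne_bot_iff _).mp hne
  have hs := star h ρ hsum hne g hu
  rw [Finset.sum_eq_single (1 : A)] at hs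
  · have h1 : g⁻¹ * ((1 : A) : G) * g = 1 := by simp
    rw [h1, if_pos (Subgroup.one_mem _), map_one] at hs
    exact hu0 hs
  · intro a _ ha
    rw [if_neg]
    intro hmem
    apply ha
    have : (a : G) ∈ A ⊓ cj g (Hw h ρ lam nu) := ⟨a.2, mem_cj.mpr hmem⟩
    rw [hbot, mem_bot] at this
    exact Subtype.ext this
  · intro hh; exact absurd (Finset.mem_univ _) hh

theorem sum_stab {A : Subgroup G} (hsum : ∀ v : V, ∑ᶠ a : A, ρ (a : G) v = 0)
    (hne : Xw h ρ lam nu ≠ ⊥) {u : V} (hu : u ∈ Xw h ρ lam nu) :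
    ∑ᶠ b : (A ⊓ Hw h ρ lam nu : Subgroup G), ρ (b : G) u = 0 := by
  classical
  have := Fintype.ofFinite A
  have := Fintype.ofFinite (A ⊓ Hw h ρ lam nu : Subgroup G)
  have hs := star h ρ hsum hne 1 hu
  rw [finsum_eq_sum_of_fintype, ← hs, ← Finset.sum_filter]
  refine Finset.sum_bij (fun (b : (A ⊓ Hw h ρ lam nu : Subgroup G)) _ => (⟨b, b.2.1⟩ : A))
    ?_ ?_ ?_ ?_
  · intro b _
    rw [Finset.mem_filter]
    exact ⟨Finset.mem_univ _, by simpa using b.2.2⟩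
  · intro a _ b _ hab
    exact Subtype.ext (congrArg (fun t : A => (t : G)) hab)
  · intro a ha
    rw [Finset.mem_filter] at ha
    exact ⟨⟨a, a.2, by simpa using ha.2⟩, Finset.mem_univ _, rfl⟩
  · intro b _
    simp

end

include h in
/-- elements of `D` are detected by weight vectors -/
theorem detect (h2 : (2 : k) ≠ 0) {δ : G} (hδ : δ ∈ D) (hne : ρ δ ≠ 1) :
    ∃ lam : G → k, ∃ v ∈ Xl ρ D lam, v ≠ 0 ∧ ρ δ v ≠ v := by
  classical
  set X0 : Submodule k V := LinearMap.range (ρ δ - 1) with hX0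
  have hX0ne : X0 ≠ ⊥ := by
    intro hb
    apply hne
    rw [LinearMap.range_eq_bot] at hb
    exact sub_eq_zero.mp hb
  obtain ⟨v, hv, hv0, hvS⟩ := common_eig (Set.range fun x : D => ρ (x : G)) _ X0 rfl hX0ne
    (by
      rintro _ ⟨x, rfl⟩ _ ⟨u, rfl⟩
      refine ⟨ρ (x : G) u, ?_⟩
      simp only [LinearMap.sub_apply, Module.End.one_apply, map_sub]
      rw [← rm, ← rm, h.comm _ hδ _ x.2])
    (by
      rintro _ ⟨x, rfl⟩ _ ⟨y, rfl⟩ u _
      show ρ (x : G) (ρ (y : G) u) = ρ (y : G) (ρ (x : G) u)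
      rw [← rm, ← rm, h.comm _ x.2 _ y.2])
  choose c hc using fun x : D => hvS _ ⟨x, rfl⟩
  refine ⟨fun g => if hg : g ∈ D then c ⟨g, hg⟩ else 0, v, ?_, hv0, ?_⟩
  · intro d hd
    show ρ d v = (if hg : d ∈ D then c ⟨d, hg⟩ else 0) • v
    rw [dif_pos hd]
    exact hc ⟨d, hd⟩
  · intro hfix
    obtain ⟨u, rfl⟩ := hv
    set v := (ρ δ - 1) u with hv
    have hu : ρ δ u = u + v := by
      rw [hv]; simp
    have hpow : ∀ n : ℕ, ρ (δ ^ n) u = u + (n : k) • v := by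
      intro n
      induction n with
      | zero => simp
      | succ n ih =>
        rw [pow_succ', rm, ih, map_add, map_smul, hfix, hu]
        push_cast
        rw [add_smul, one_smul]
        abel
    obtain ⟨n, hn⟩ := isTwo_of_isPGroup h.Q2 (h.le hδ)
    have h3 := hpow (2 ^ n)
    rw [hn, map_one] at h3
    have h4 : ((2 ^ n : ℕ) : k) • v = 0 := by
      have : u = u + ((2 ^ n : ℕ) : k) • v := h3
      exact left_eq_add.mp this
    rw [smul_eq_zero] at h4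
    rcases h4 with h4 | h4
    · push_cast at h4
      exact absurd h4 (pow_ne_zero n h2)
    · exact hv0 h4

end Pool.Agent.Th36
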