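import Mathlib
import Pool.Agent.Helper36.Th.Wt
import Pool.Agent.Helper9.Th.SecBound

set_option autoImplicit false
set_option linter.unusedSectionVars false

/-!
The proposition `PropS2` on linear representations without `A`-invariants.
-/

namespace Pool.Agent.Th36

open Subgroup Pool.Agent.Th Module

section

variable {G : Type} [Group G] [Finite G] {k V : Type} [Field k] [IsAlgClosed k] [AddCommGroup V]
  [Module k V] [FiniteDimensional k V]

variable {Q D : Subgroup G} (h : IsD Q D) (ρ : Representation k G V)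

lemma sq_comm {x y : G} (hx : x ∈ h.R) (hy : y ∈ h.R) :
    (x * y * x⁻¹ * y⁻¹) * (x * y * x⁻¹ * y⁻¹) = 1 := by
  set d := x * y * x⁻¹ * y⁻¹ with hd
  have hdD : d ∈ D := h.comm_R hx hy
  have hxx : x * x ∈ D := (h.mem_R.mp hx).2.2.1
  have h1 : y * (x * x) = (x * x) * y := h.cent_D hy hxx
  have h2 : x * d = d * x := h.cent_D hx hdD
  have e : (x * x) * y * (x * x)⁻¹ * y⁻¹ = x * d * x⁻¹ * d := by rw [hd]; group
  have h3 : (x * x) * y * (x * x)⁻¹ * y⁻¹ = 1 := by rw [← h1]; group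
  rw [h3, h2] at e
  have e2 : d * x * x⁻¹ * d = d * d := by group
  rw [e2] at e
  exact e.symm

lemma setup (h2 : (2 : k) ≠ 0) {lam nu : G → k} {A : Subgroup G}
    (hsum : ∀ v : V, ∑ᶠ a : A, ρ (a : G) v = 0) (hne : Xw h ρ lam nu ≠ ⊥) :
    Setup ρ (A ⊓ Hw h ρ lam nu) h.R (Rl h ρ lam) (Xw h ρ lam nu) where
  two := h2
  X_ne := hne
  BR b _ x hx := h.R_normal.conj_mem _ hx b
  XR x hx v hv := R_Xw h ρ hx hv
  XB b hb v hv := hb.2 v hv
  sgn x hx y hy := by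
    have hd := h.comm_R hx hy
    have hsq := sq_comm h hx hy
    set d := x * y * x⁻¹ * y⁻¹
    obtain ⟨u, hu, hu0⟩ := (Submodule.ne_bot_iff _).mp hne
    have h1 : lam d * lam d = 1 := by
      have h3 : ρ (d * d) u = (lam d * lam d) • u := by
        rw [rm, hu.1 d hd, map_smul, hu.1 d hd, smul_smul]
      rw [hsq, map_one] at h3
      have h4 : (1 : k) • u = (lam d * lam d) • u := by rw [one_smul]; exact h3
      exact (smul_left_injective k hu0 h4).symm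
    rcases mul_self_eq_one_iff.mp h1 with h3 | h3
    · left
      intro v hv
      rw [hv.1 d hd, h3, one_smul]
    · right
      intro v hv
      rw [hv.1 d hd, h3, neg_smul, one_smul]
  Rl_le := Rl_le h ρ lam
  mem_Rl x hx hxy := by
    obtain ⟨u, hu, hu0⟩ := (Submodule.ne_bot_iff _).mp hne
    refine ⟨hx, fun y hy w hw => ?_⟩
    have hd := h.comm_R hx hy
    have h3 := hxy y hy u hu
    rw [hu.1 _ hd] at h3
    have h4 : lam (x * y * x⁻¹ * y⁻¹) = 1 :=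
      smul_left_injective k hu0 (by show _ • u = (1 : k) • u; rw [h3, one_smul])
    rw [hw _ hd, h4, one_smul]
  sum v hv := sum_stab h ρ hsum hne hv

/-- `J` centralises `D`. -/
lemma cent_of_le (h2 : (2 : k) ≠ 0) (hfaith : ∀ x : G, ρ x = 1 → x = 1) {J : Subgroup G}
    (hJ : ∀ lam nu : G → k, Xw h ρ lam nu ≠ ⊥ → J ≤ Hw h ρ lam nu) {x d : G} (hx : x ∈ J)
    (hd : d ∈ D) : x * d = d * x := by
  by_contra hne
  set δ := x⁻¹ * d * x * d⁻¹ with hδ
  have hδD : δ ∈ D := by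
    apply D.mul_mem _ (D.inv_mem hd)
    simpa using h.Dn.conj_mem _ hd x⁻¹
  have hδ1 : ρ δ ≠ 1 := by
    intro h1
    apply hne
    have h3 := hfaith _ h1
    have h4 : x⁻¹ * d * x = d := mul_inv_eq_one.mp h3
    calc x * d = x * (x⁻¹ * d * x) := by rw [h4]
      _ = d * x := by group
  obtain ⟨lam, v, hv, hv0, hvδ⟩ := detect h ρ h2 hδD hδ1
  obtain ⟨nu, hnu⟩ := exists_nu h ρ (lam := lam)
    (fun hb => hv0 (by rw [hb, Submodule.mem_bot] at hv; exact hv))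
  have h3 := ((mem_Hw_iff h ρ hnu).mp (hJ lam nu hnu hx)).1 d hd
  apply hvδ
  have hxd : x⁻¹ * d * x ∈ D := by simpa using h.Dn.conj_mem _ hd x⁻¹
  rw [hδ, rm, hv _ (D.inv_mem hd), map_smul, hv _ hxd, h3, ← hv d hd, ← map_smul,
    ← hv _ (D.inv_mem hd)]
  exact rinv ρ d v

theorem faithful_case (hW : LemW) {m F h1 g : ℕ} (hB : Bd (m - 1) F) (hI : ThmI m h1)
    (hg : ∀ (G : Type) [Group G] [Finite G]
      [Group.IsSolvable G] (R T T' : Subgroup G) (S : Set G),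
      T' ≤ T → (∀ x ∈ R, ∀ t ∈ T, x * t * x⁻¹ ∈ T) → (∀ x ∈ R, ∀ t ∈ T', x * t * x⁻¹ ∈ T') →
      (∀ s ∈ T, ∀ t ∈ T, s * t * s⁻¹ * t⁻¹ ∈ T') → R = closure S →
      (∀ s ∈ S, ∃ L : Subgroup G, L ≤ T ∧ L.relIndex T ≤ K0 m ∧
        ∀ t ∈ L, s * t * s⁻¹ * t⁻¹ ∈ T') →
      ∀ x ∈ res g R, ∀ t ∈ T, x * t * x⁻¹ * t⁻¹ ∈ T')
    [Group.IsSolvable G] {A P : Subgroup G} (hA : SolIn A P) (hc : Nat.card A ≤ m)
    (hQn : Q.Normal) (hQ2 : IsPGroup 2 Q)
    (h2 : (2 : k) ≠ 0) (hsum : ∀ v : V, ∑ᶠ a : A, ρ (a : G) v = 0)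
    (hfaith : ∀ x : G, ρ x = 1 → x = 1) :
    ∀ x ∈ res (h1 + (m * (F + 1) + g) + 1) (⊤ : Subgroup G), ∀ y ∈ Q, x * y = y * x := by
  obtain ⟨D, h⟩ := exists_D Q hQn hQ2
  set J := res h1 (⊤ : Subgroup G) with hJdef
  have hRn := h.R_normal
  have hJw : ∀ lam nu : G → k, Xw h ρ lam nu ≠ ⊥ → J ≤ Hw h ρ lam nu := fun lam nu hne =>
    hI G A P _ hA hc (inter_ne_bot h ρ hsum hne)
  have hJD : ∀ x ∈ J, ∀ d ∈ D, x * d = d * x := fun x hx d hd =>
    cent_of_le h ρ h2 hfaith hJw hx hd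
  have hkey : ∀ lam nu : G → k, Xw h ρ lam nu ≠ ⊥ → ∀ x ∈ res (m * (F + 1) + g) J,
      ∀ t ∈ h.R, x * t * x⁻¹ * t⁻¹ ∈ Rl h ρ lam := by
    intro lam nu hne
    obtain ⟨b, hb, hb1, L, hLR, hLc, hL⟩ := (setup h ρ h2 hsum hne).small
    refine section_bound hW hB hg hA hc (J := J) (T := h.R) (T' := Rl h ρ lam)
      (Rl_le h ρ lam)
      (fun x _ t ht => hRn.conj_mem _ ht x)
      (fun x hx t ht => conj_Rl h ρ ((mem_Hw_iff h ρ hne).mp (hJw lam nu hne hx)).1 ht)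
      (fun s hs t ht => D_le_Rl h ρ lam (h.comm_R hs ht)) hb.1 hb1
      (fun t ht => hRn.conj_mem _ ht b)
      (fun t ht => conj_Rl h ρ ((mem_Hw_iff h ρ hne).mp hb.2).1 ht)
      ⟨L, hLR, hLc.trans (K0_mono ?_), hL⟩
    refine le_trans ?_ hc
    exact Subgroup.card_le_of_le inf_le_left
  have hRD : ∀ x ∈ res (m * (F + 1) + g) J, ∀ t ∈ h.R, x * t * x⁻¹ * t⁻¹ ∈ D := by
    intro x hx t ht
    have hcR : x * t * x⁻¹ * t⁻¹ ∈ h.R := h.R.mul_mem (hRn.conj_mem _ ht x) (h.R.inv_mem ht)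
    refine h.center_R hcR fun y hy => ?_
    by_contra hne
    set c := x * t * x⁻¹ * t⁻¹ with hcdef
    have hδ1 : ρ (c * y * c⁻¹ * y⁻¹) ≠ 1 := by
      intro hh
      apply hne
      have h3 := hfaith _ hh
      rw [mul_inv_eq_one, mul_inv_eq_iff_eq_mul] at h3
      exact h3
    obtain ⟨lam, v, hv, hv0, hvδ⟩ := detect h ρ h2 (h.comm_R hcR hy) hδ1
    obtain ⟨nu, hnu⟩ := exists_nu h ρ (lam := lam)
      (fun hb => hv0 (by rw [hb, Submodule.mem_bot] at hv; exact hv))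
    exact hvδ ((hkey lam nu hnu x hx t ht).2 y hy v hv)
  -- odd elements
  have hK : res (h1 + (m * (F + 1) + g)) (⊤ : Subgroup G) = res (m * (F + 1) + g) J :=
    res_add _ _ _
  have hOd : Od (res (m * (F + 1) + g) J) ≤ centralizer (Q : Set G) := by
    rw [Od_le_iff]
    intro c hc hodd
    rw [mem_centralizer_iff]
    intro y hy
    exact (h.odd_central hodd (fun d hd => hJD c (res_le _ _ hc) d hd)
      (fun t ht => hRD c hc t ht) y hy).symm
  intro x hx y hy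
  rw [res_succ, hK] at hx
  exact (mem_centralizer_iff.mp (hOd (Ev_le _ hx)) y hy).symm

end

end Pool.Agent.Th36
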