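import Mathlib
import Pool.Agent.Helper36.Th.Main2

set_option autoImplicit false
set_option linter.unusedSectionVars false

/-!
The proposition `PropS2`: reduction to the faithful case.
-/

namespace Pool.Agent.Th36

open Subgroup Pool.Agent.Th Module

/-- `A` has no invariants after passing to the quotient by the kernel. -/
lemma sum_quot {G G' : Type} [Group G] [Finite G] [Group G'] {k V : Type} [Field k]
    [AddCommGroup V] [Module k V] (h2 : (2 : k) ≠ 0)
    (ρ : Representation k G V) (ρ' : Representation k G' V) (f : G →* G')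
    (hρ : ∀ x, ρ' (f x) = ρ x) {A : Subgroup G} (hA : IsPGroup 2 A)
    (hsum : ∀ v : V, ∑ᶠ a : A, ρ (a : G) v = 0) :
    ∀ v : V, ∑ᶠ a : A.map f, ρ' (a : G') v = 0 := by
  classical
  intro v
  have := Fintype.ofFinite A
  have hfin : Finite (A.map f) := Finite.of_surjective
    (fun x : A => (⟨f x, mem_map_of_mem f x.2⟩ : A.map f))
    (by rintro ⟨_, x, hx, rfl⟩; exact ⟨⟨x, hx⟩, rfl⟩)
  have := Fintype.ofFinite (A.map f)
  rw [finsum_eq_sum_of_fintype]
  set w := ∑ a : A.map f, ρ' (a : G') v with hw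
  have hinv : ∀ a : A, ρ (a : G) w = w := by
    intro a
    rw [hw, map_sum]
    have h1 := Equiv.sum_comp (Equiv.mulLeft (⟨f a, mem_map_of_mem f a.2⟩ : A.map f))
      (fun b : A.map f => ρ' (b : G') v)
    rw [← h1]
    refine Finset.sum_congr rfl fun b _ => ?_
    rw [← hρ]
    show ρ' (f a) (ρ' b v) = ρ' (f a * b) v
    rw [map_mul]; rfl
  have h1 := hsum w
  rw [finsum_eq_sum_of_fintype, Finset.sum_congr rfl (fun a _ => hinv a), Finset.sum_const,
    Finset.card_univ, ← Nat.card_eq_fintype_card] at h1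
  obtain ⟨n, hn⟩ := (IsPGroup.iff_card (p := 2)).mp hA
  rw [hn] at h1
  have h3 : ((2 ^ n : ℕ) : k) • w = 0 := by
    rw [← Nat.cast_smul_eq_nsmul k] at h1
    exact h1
  rw [smul_eq_zero] at h3
  rcases h3 with h3 | h3
  · push_cast at h3
    exact absurd h3 (pow_ne_zero n h2)
  · exact h3

theorem propS2_of (hW : LemW) (hBC : BC) {m F h1 : ℕ} (hB : Bd (m - 1) F) (hI : ThmI m h1) :
    ∃ h, PropS2 m h := by
  obtain ⟨g, hg⟩ := BC.internal hBC (K0 m)
  refine ⟨h1 + (m * (F + 1) + g) + 1, ?_⟩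
  intro G _ _ _ A P Q hA hc hQn hQ2 k _ _ V _ _ _ ρ h2 hsum x hx y hy
  set N : Subgroup G := MonoidHom.ker (ρ : G →* (V →ₗ[k] V)) with hN
  set π : G →* G ⧸ N := QuotientGroup.mk' N with hπ
  have hπs : Function.Surjective π := QuotientGroup.mk'_surjective N
  let ρ' : Representation k (G ⧸ N) V := QuotientGroup.lift N ρ (fun x hx => hx)
  have hρ : ∀ x, ρ' (π x) = ρ x := fun x => rfl
  have hfaith : ∀ x : G ⧸ N, ρ' x = 1 → x = 1 := by
    intro z hz
    obtain ⟨z, rfl⟩ := hπs z
    rw [hρ] at hz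
    exact (QuotientGroup.eq_one_iff z).mpr hz
  have hsol : Group.IsSolvable (G ⧸ N) := Group.isSolvable_of_surjective hπs
  have hQn' : (Q.map π).Normal := hQn.map π hπs
  have hfc := faithful_case (Q := Q.map π) ρ' hW hB hI hg (hA.map π hπs)
    ((card_map_le π A).trans hc) hQn' (hQ2.map π) h2
    (sum_quot h2 ρ ρ' π hρ hA.isPA hsum) hfaith (π x)
    (by rw [← res_top_map π hπs]; exact mem_map_of_mem π hx) (π y) (mem_map_of_mem π hy)
  have h3 : π (x * y * x⁻¹ * y⁻¹) = 1 := by
    rw [map_mul, map_mul, map_mul, hfc, map_inv, map_inv]; group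
  rw [← hρ, h3, map_one]

end Pool.Agent.Th36
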